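import Mathlib

/-!
Definitions for MP_053343_lc: transitive models of ZF and topological notions relativised to
such a model.
-/

namespace Pool.Agent.Lib.MP_053343_lc

/-- Formulas of the language of set theory, with de Bruijn variables. -/
inductive Fml : Type
  | mem (i j : ℕ) : Fml
  | eq (i j : ℕ) : Fml
  | neg (φ : Fml) : Fml
  | and (φ ψ : Fml) : Fml
  | ex (φ : Fml) : Fml

/-- Satisfaction in the structure `(M, ∈)`; variable `i` denotes entry `i` of the list. -/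
def Sat (M : ZFSet.{0}) : Fml → List ZFSet.{0} → Prop
  | .mem i j, l => l.getD i ∅ ∈ l.getD j ∅
  | .eq i j, l => l.getD i ∅ = l.getD j ∅
  | .neg φ, l => ¬ Sat M φ l
  | .and φ ψ, l => Sat M φ l ∧ Sat M ψ l
  | .ex φ, l => ∃ x ∈ M, Sat M φ (x :: l)

/-- `M` is a transitive set and `(M, ∈)` satisfies ZF: extensionality, foundation, pairing,
union, power set, infinity, and the separation and collection schemes. -/
structure ModelZF (M : ZFSet.{0}) : Prop where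
  trans : M.IsTransitive
  ext : ∀ a ∈ M, ∀ b ∈ M, (∀ x ∈ M, x ∈ a ↔ x ∈ b) → a = b
  found : ∀ a ∈ M, (∃ x ∈ M, x ∈ a) → ∃ x ∈ M, x ∈ a ∧ ¬ ∃ y ∈ M, y ∈ x ∧ y ∈ a
  pair : ∀ a ∈ M, ∀ b ∈ M, ({a, b} : ZFSet) ∈ M
  union : ∀ a ∈ M, ZFSet.sUnion a ∈ M
  power : ∀ a ∈ M, ∃ b ∈ M, ∀ x ∈ M, x ∈ b ↔ x ⊆ a
  inf : ZFSet.omega ∈ M
  sep : ∀ (φ : Fml) (l : List ZFSet), (∀ x ∈ l, x ∈ M) → ∀ a ∈ M,
    ZFSet.sep (fun x => Sat M φ (x :: l)) a ∈ M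
  coll : ∀ (φ : Fml) (l : List ZFSet), (∀ x ∈ l, x ∈ M) → ∀ a ∈ M,
    (∀ x ∈ a, ∃ y ∈ M, Sat M φ (y :: x :: l)) →
      ∃ b ∈ M, ∀ x ∈ a, ∃ y ∈ b, Sat M φ (y :: x :: l)

/-- Von Neumann numerals. -/
def nat : ℕ → ZFSet.{0}
  | 0 => ∅
  | n + 1 => insert (nat n) (nat n)

/-- The rational `(a - b) / c` in lowest terms, with `a = 0` or `b = 0`, as the triple
`(a, b, c)`. -/
def code (q : ℚ) : ZFSet.{0} :=
  ZFSet.pair (nat q.num.toNat) (ZFSet.pair (nat (-q.num).toNat) (nat q.den))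

/-- A real number as a lower Dedekind cut. -/
noncomputable def cut (r : ℝ) : ZFSet.{0} :=
  ZFSet.range fun q : {q : ℚ // (q : ℝ) < r} => code q

/-- `τ` is a topology on `X` in the sense of `M`. -/
def IsTop (M X τ : ZFSet.{0}) : Prop :=
  (∀ U ∈ τ, U ⊆ X) ∧ X ∈ τ ∧ (∀ U ∈ τ, ∀ V ∈ τ, U ∩ V ∈ τ) ∧
    ∀ S ∈ M, S ⊆ τ → ZFSet.sUnion S ∈ τ

/-- `F` restricted to `X` is a continuous real function on `(X, τ)` whose graph is in `M`. -/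
def IsCont (M X τ : ZFSet.{0}) (F : ZFSet.{0} → ℝ) : Prop :=
  (∃ f ∈ M, ∀ z, z ∈ f ↔ ∃ x ∈ X, z = ZFSet.pair x (cut (F x))) ∧
    ∀ x ∈ X, ∀ ε > 0, ∃ U ∈ τ, x ∈ U ∧ ∀ y ∈ U, |F y - F x| < ε

/-- `(X, τ)` is a completely regular `T₁` space in the sense of `M`. -/
def Tychonoff (M X τ : ZFSet.{0}) : Prop :=
  (∀ x ∈ X, ∀ y ∈ X, x ≠ y → ∃ U ∈ τ, x ∈ U ∧ y ∉ U) ∧
    ∀ U ∈ τ, ∀ x ∈ U, ∃ F, IsCont M X τ F ∧ F x = 0 ∧
      ∀ y ∈ X, F y ∈ Set.Icc (0 : ℝ) 1 ∧ (y ∉ U → F y = 1)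

/-- Every point is the intersection of a sequence in `M` of open sets. -/
def CtblPseudo (M X τ : ZFSet.{0}) : Prop :=
  ∀ x ∈ X, ∃ U : ℕ → ZFSet.{0},
    (∃ g ∈ M, ∀ z, z ∈ g ↔ ∃ n, z = ZFSet.pair (nat n) (U n)) ∧
      (∀ n, U n ∈ τ) ∧ ∀ y, (∀ n, y ∈ U n) ↔ y = x

/-- `U` belongs to the zero-set topology `τ_z` in the sense of `M`. -/
def ZOpen (M X τ U : ZFSet.{0}) : Prop :=
  ∀ x ∈ U, ∃ F, IsCont M X τ F ∧ F x = 0 ∧ ∀ y ∈ X, F y = 0 → y ∈ U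

end Pool.Agent.Lib.MP_053343_lc
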