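import Mathlib
import Pool.Agent.Lib.MP_053343_lc.Defs

/-!
Forcing names, hereditarily symmetric names, the strong forcing relation, the symmetry lemma.
-/

namespace Pool.Agent.Lib.MP_053343_lc

open Filter

/-- Forcing names over a set of conditions. -/
inductive Name (P : Type) : Type 1
  | mk (α : Type) (A : α → Name P) (B : α → P) : Name P

namespace Name

variable {P : Type}

def Ty : Name P → Type
  | ⟨α, _, _⟩ => α

def ch : (τ : Name P) → τ.Ty → Name P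
  | ⟨_, A, _⟩ => A

def cd : (τ : Name P) → τ.Ty → P
  | ⟨_, _, B⟩ => B

def empty : Name P := ⟨Empty, fun i => i.elim, fun i => i.elim⟩

theorem ind {C : Name P → Prop} (h : ∀ τ : Name P, (∀ i, C (τ.ch i)) → C τ) (τ : Name P) :
    C τ := by
  induction τ with
  | mk α A B ih => exact h _ ih

section order

variable [Preorder P]

def FEq : Name P → Name P → P → Prop
  | ⟨_, A, B⟩, τ, p =>
    (∀ i, ∀ q ≤ p, q ≤ B i → ∃ r ≤ q, ∃ j, r ≤ τ.cd j ∧ FEq (A i) (τ.ch j) r) ∧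
    (∀ j, ∀ q ≤ p, q ≤ τ.cd j → ∃ r ≤ q, ∃ i, r ≤ B i ∧ FEq (A i) (τ.ch j) r)

theorem feq_iff {σ τ : Name P} {p : P} : FEq σ τ p ↔
    (∀ i, ∀ q ≤ p, q ≤ σ.cd i → ∃ r ≤ q, ∃ j, r ≤ τ.cd j ∧ FEq (σ.ch i) (τ.ch j) r) ∧
    (∀ j, ∀ q ≤ p, q ≤ τ.cd j → ∃ r ≤ q, ∃ i, r ≤ σ.cd i ∧ FEq (σ.ch i) (τ.ch j) r) := by
  cases σ; rfl

def FMem (σ τ : Name P) (p : P) : Prop := ∃ j, p ≤ τ.cd j ∧ FEq σ (τ.ch j) p

theorem FEq.mono {σ τ : Name P} {p q : P} (h : FEq σ τ p) (hq : q ≤ p) : FEq σ τ q := by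
  rw [feq_iff] at h ⊢
  exact ⟨fun i r hr => h.1 i r (hr.trans hq), fun j r hr => h.2 j r (hr.trans hq)⟩

theorem FMem.mono {σ τ : Name P} {p q : P} (h : FMem σ τ p) (hq : q ≤ p) : FMem σ τ q := by
  obtain ⟨j, h1, h2⟩ := h
  exact ⟨j, hq.trans h1, h2.mono hq⟩

theorem FEq.symm {σ : Name P} : ∀ {τ : Name P} {p : P}, FEq σ τ p → FEq τ σ p := by
  induction σ using Name.ind with
  | h σ ih =>
    intro τ p h
    rw [feq_iff] at h ⊢
    constructor
    · intro j q hq hj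
      obtain ⟨r, hr, i, hi, h'⟩ := h.2 j q hq hj
      exact ⟨r, hr, i, hi, ih i h'⟩
    · intro i q hq hi
      obtain ⟨r, hr, j, hj, h'⟩ := h.1 i q hq hi
      exact ⟨r, hr, j, hj, ih i h'⟩

theorem FEq.refl (σ : Name P) : ∀ p : P, FEq σ σ p := by
  induction σ using Name.ind with
  | h σ ih =>
    intro p
    rw [feq_iff]
    exact ⟨fun i q _ hi => ⟨q, le_rfl, i, hi, ih i q⟩, fun i q _ hi => ⟨q, le_rfl, i, hi, ih i q⟩⟩

theorem feq_iff_mem {σ τ : Name P} {p : P} : FEq σ τ p ↔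
    (∀ i, ∀ q ≤ p, q ≤ σ.cd i → ∃ r ≤ q, FMem (σ.ch i) τ r) ∧
    (∀ j, ∀ q ≤ p, q ≤ τ.cd j → ∃ r ≤ q, FMem (τ.ch j) σ r) := by
  rw [feq_iff]
  refine and_congr Iff.rfl ?_
  constructor
  · intro h j q hq hj
    obtain ⟨r, hr, i, hi, h'⟩ := h j q hq hj
    exact ⟨r, hr, i, hi, h'.symm⟩
  · intro h j q hq hj
    obtain ⟨r, hr, i, hi, h'⟩ := h j q hq hj
    exact ⟨r, hr, i, hi, h'.symm⟩

end order

section action

variable {Γ : Type} [Group Γ] [MulAction Γ P]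

/-- `Rel π σ τ`: the name `τ` is, as a set, the image of `σ` under `π`. -/
def Rel (π : Γ) : Name P → Name P → Prop
  | ⟨_, A, B⟩, τ =>
    (∀ i, ∃ j, τ.cd j = π • B i ∧ Rel π (A i) (τ.ch j)) ∧
    (∀ j, ∃ i, τ.cd j = π • B i ∧ Rel π (A i) (τ.ch j))

theorem rel_iff {π : Γ} {σ τ : Name P} : Rel π σ τ ↔
    (∀ i, ∃ j, τ.cd j = π • σ.cd i ∧ Rel π (σ.ch i) (τ.ch j)) ∧
    (∀ j, ∃ i, τ.cd j = π • σ.cd i ∧ Rel π (σ.ch i) (τ.ch j)) := by
  cases σ; rfl

def act (π : Γ) : Name P → Name P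
  | ⟨α, A, B⟩ => ⟨α, fun i => act π (A i), fun i => π • B i⟩

theorem rel_act (π : Γ) (σ : Name P) : Rel π σ (act π σ) := by
  induction σ with
  | mk α A B ih => exact ⟨fun i => ⟨i, rfl, ih i⟩, fun i => ⟨i, rfl, ih i⟩⟩

theorem act_one (σ : Name P) : act (1 : Γ) σ = σ := by
  induction σ with
  | mk α A B ih => simp only [act, one_smul, ih]

theorem Rel.inv {π : Γ} {σ : Name P} : ∀ {τ : Name P}, Rel π σ τ → Rel π⁻¹ τ σ := by
  induction σ using Name.ind with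
  | h σ ih =>
    intro τ h
    rw [rel_iff] at h ⊢
    constructor
    · intro j
      obtain ⟨i, h1, h2⟩ := h.2 j
      exact ⟨i, by rw [h1, inv_smul_smul], ih i h2⟩
    · intro i
      obtain ⟨j, h1, h2⟩ := h.1 i
      exact ⟨j, by rw [h1, inv_smul_smul], ih i h2⟩

theorem Rel.comp {π ρ : Γ} {σ : Name P} :
    ∀ {τ υ : Name P}, Rel π σ τ → Rel ρ τ υ → Rel (ρ * π) σ υ := by
  induction σ using Name.ind with
  | h σ ih =>
    intro τ υ h h'
    rw [rel_iff] at h h' ⊢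
    constructor
    · intro i
      obtain ⟨j, h1, h2⟩ := h.1 i
      obtain ⟨k, h3, h4⟩ := h'.1 j
      exact ⟨k, by rw [h3, h1, mul_smul], ih i h2 h4⟩
    · intro k
      obtain ⟨j, h3, h4⟩ := h'.2 k
      obtain ⟨i, h1, h2⟩ := h.2 j
      exact ⟨i, by rw [h3, h1, mul_smul], ih i h2 h4⟩

theorem rel_empty (π : Γ) : Rel π (empty : Name P) empty :=
  ⟨fun i => i.elim, fun i => i.elim⟩

/-- Hereditarily symmetric names. -/
def HS (F : Filter Γ) : Name P → Prop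
  | ⟨α, A, B⟩ => (∀ᶠ π in F, Rel π (⟨α, A, B⟩ : Name P) ⟨α, A, B⟩) ∧ ∀ i, HS F (A i)

theorem hs_iff {F : Filter Γ} {σ : Name P} :
    HS F σ ↔ (∀ᶠ π in F, Rel π σ σ) ∧ ∀ i, HS F (σ.ch i) := by
  cases σ; rfl

theorem HS.sym {F : Filter Γ} {σ : Name P} (h : HS F σ) : ∀ᶠ π in F, Rel π σ σ :=
  (hs_iff.1 h).1

theorem HS.ch {F : Filter Γ} {σ : Name P} (h : HS F σ) (i : σ.Ty) : HS F (σ.ch i) :=
  (hs_iff.1 h).2 i

theorem hs_empty (F : Filter Γ) : HS F (empty : Name P) :=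
  ⟨Eventually.of_forall rel_empty, fun i => i.elim⟩

theorem HS.act {F : Filter Γ} (hF : ∀ π : Γ, Tendsto (fun ρ => π⁻¹ * ρ * π) F F) (π : Γ)
    {σ : Name P} (h : HS F σ) : HS F (act π σ) := by
  induction σ with
  | mk α A B ih =>
    refine ⟨?_, fun i => ih i (h.2 i)⟩
    filter_upwards [(hF π).eventually h.1] with ρ hρ
    have h1 := rel_act π (⟨α, A, B⟩ : Name P)
    have h2 := (h1.inv.comp hρ).comp h1
    have e : π * (π⁻¹ * ρ * π * π⁻¹) = ρ := by group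
    rw [e] at h2
    exact h2

variable [Preorder P]

theorem FEq.rel (hm : ∀ (π : Γ) (p q : P), p ≤ q → π • p ≤ π • q) {π : Γ} {σ : Name P} :
    ∀ {τ σ' τ' : Name P} {p : P}, Rel π σ σ' → Rel π τ τ' → FEq σ τ p → FEq σ' τ' (π • p) := by
  induction σ using Name.ind with
  | h σ ih =>
    intro τ σ' τ' p h1 h2 h
    rw [rel_iff] at h1 h2
    rw [feq_iff] at h ⊢
    constructor
    · intro i' q hq hi'
      obtain ⟨i, e1, r1⟩ := h1.2 i'
      have a1 : π⁻¹ • q ≤ p := by simpa using hm π⁻¹ _ _ hq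
      have a2 : π⁻¹ • q ≤ σ.cd i := by rw [e1] at hi'; simpa using hm π⁻¹ _ _ hi'
      obtain ⟨r, hr, j, hj, h'⟩ := h.1 i _ a1 a2
      obtain ⟨j', e2, r2⟩ := h2.1 j
      refine ⟨π • r, by simpa using hm π _ _ hr, j', ?_, ih i r1 r2 h'⟩
      rw [e2]; exact hm π _ _ hj
    · intro j' q hq hj'
      obtain ⟨j, e2, r2⟩ := h2.2 j'
      have a1 : π⁻¹ • q ≤ p := by simpa using hm π⁻¹ _ _ hq
      have a2 : π⁻¹ • q ≤ τ.cd j := by rw [e2] at hj'; simpa using hm π⁻¹ _ _ hj'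
      obtain ⟨r, hr, i, hi, h'⟩ := h.2 j _ a1 a2
      obtain ⟨i', e1, r1⟩ := h1.1 i
      refine ⟨π • r, by simpa using hm π _ _ hr, i', ?_, ih i r1 r2 h'⟩
      rw [e1]; exact hm π _ _ hi

theorem FMem.rel (hm : ∀ (π : Γ) (p q : P), p ≤ q → π • p ≤ π • q) {π : Γ}
    {σ τ σ' τ' : Name P} {p : P} (h1 : Rel π σ σ') (h2 : Rel π τ τ') (h : FMem σ τ p) :
    FMem σ' τ' (π • p) := by
  obtain ⟨j, hj, h⟩ := h
  obtain ⟨j', e, r⟩ := (rel_iff.1 h2).1 j
  exact ⟨j', by rw [e]; exact hm π _ _ hj, FEq.rel hm h1 r h⟩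

/-- The strong forcing relation; quantifiers range over hereditarily symmetric names. -/
def Frc (F : Filter Γ) : Fml → List (Name P) → P → Prop
  | .mem i j, l, p => FMem (l.getD i empty) (l.getD j empty) p
  | .eq i j, l, p => FEq (l.getD i empty) (l.getD j empty) p
  | .neg φ, l, p => ∀ q ≤ p, ¬ Frc F φ l q
  | .and φ ψ, l, p => Frc F φ l p ∧ Frc F ψ l p
  | .ex φ, l, p => ∃ σ, HS F σ ∧ Frc F φ (σ :: l) p

theorem Frc.mono {F : Filter Γ} {φ : Fml} :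
    ∀ {l : List (Name P)} {p q : P}, Frc F φ l p → q ≤ p → Frc F φ l q := by
  induction φ with
  | mem i j => exact fun h hq => FMem.mono h hq
  | eq i j => exact fun h hq => FEq.mono h hq
  | neg φ _ => exact fun h hq r hr => h r (hr.trans hq)
  | and φ ψ ih1 ih2 => exact fun h hq => ⟨ih1 h.1 hq, ih2 h.2 hq⟩
  | ex φ ih => exact fun ⟨σ, h1, h2⟩ hq => ⟨σ, h1, ih h2 hq⟩

omit [Preorder P] in
theorem rel_getD {π : Γ} {l l' : List (Name P)} (h : List.Forall₂ (Rel π) l l') (i : ℕ) :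
    Rel π (l.getD i empty) (l'.getD i empty) := by
  induction h generalizing i with
  | nil => exact rel_empty π
  | cons h _ ih =>
    cases i with
    | zero => exact h
    | succ i => exact ih i

omit [Preorder P] in
theorem forall₂_inv {π : Γ} {l l' : List (Name P)} (h : List.Forall₂ (Rel π) l l') :
    List.Forall₂ (Rel π⁻¹) l' l := by
  induction h with
  | nil => exact List.Forall₂.nil
  | cons h _ ih => exact List.Forall₂.cons h.inv ih

/-- The symmetry lemma. -/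
theorem Frc.rel (hm : ∀ (π : Γ) (p q : P), p ≤ q → π • p ≤ π • q) {F : Filter Γ}
    (hF : ∀ π : Γ, Tendsto (fun ρ => π⁻¹ * ρ * π) F F) {φ : Fml} :
    ∀ {π : Γ} {l l' : List (Name P)} {p : P}, List.Forall₂ (Rel π) l l' →
      Frc F φ l p → Frc F φ l' (π • p) := by
  induction φ with
  | mem i j => exact fun h h' => FMem.rel hm (rel_getD h i) (rel_getD h j) h'
  | eq i j => exact fun h h' => FEq.rel hm (rel_getD h i) (rel_getD h j) h'
  | neg φ ih =>
    intro π l l' p h h' q hq hf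
    exact h' (π⁻¹ • q) (by simpa using hm π⁻¹ _ _ hq) (ih (forall₂_inv h) hf)
  | and φ ψ ih1 ih2 => exact fun h h' => ⟨ih1 h h'.1, ih2 h h'.2⟩
  | ex φ ih =>
    rintro π l l' p h ⟨σ, h1, h2⟩
    exact ⟨act π σ, h1.act hF π, ih (List.Forall₂.cons (rel_act π σ) h) h2⟩

omit [Preorder P] in
theorem hs_getD {F : Filter Γ} {l : List (Name P)} (h : ∀ x ∈ l, HS F x) (i : ℕ) :
    HS F (l.getD i empty) := by
  induction l generalizing i with
  | nil => exact hs_empty F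
  | cons a l ih =>
    cases i with
    | zero => exact h a (List.mem_cons_self ..)
    | succ i => exact ih (fun x hx => h x (List.mem_cons_of_mem _ hx)) i

omit [Preorder P] in
theorem hs_list {F : Filter Γ} {l : List (Name P)} (h : ∀ x ∈ l, HS F x) :
    ∀ᶠ π in F, List.Forall₂ (Rel π) l l := by
  induction l with
  | nil => exact Eventually.of_forall fun _ => List.Forall₂.nil
  | cons a l ih =>
    filter_upwards [(h a (List.mem_cons_self ..)).sym,
      ih (fun x hx => h x (List.mem_cons_of_mem _ hx))] with π h1 h2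
    exact List.Forall₂.cons h1 h2

end action

end Name

end Pool.Agent.Lib.MP_053343_lc
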