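import Mathlib
import Pool.Agent.Lib.MP_053343_lc.Names

/-!
Operations on names, a countable set of names closed under them, and a generic filter.
-/

namespace Pool.Agent.Lib.MP_053343_lc

open Filter Classical

/-- Closure of a type under countably many finitary operations, inside a predicate. -/
theorem exists_closure {T : Type 1} {ι : Type} [Countable ι] (op : ι → List T → T)
    (Q : T → Prop) (hQ : ∀ i l, (∀ x ∈ l, Q x) → Q (op i l)) :
    ∃ N : Set T, N.Countable ∧ (∀ x ∈ N, Q x) ∧ ∀ i l, (∀ x ∈ l, x ∈ N) → op i l ∈ N := by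
  let step : Set T → Set T := fun S => S ∪ {y | ∃ i l, (∀ x ∈ l, x ∈ S) ∧ y = op i l}
  let st : ℕ → Set T := fun k => step^[k] ∅
  have hs : ∀ k, st (k + 1) = step (st k) := fun k => Function.iterate_succ_apply' _ _ _
  have hmono : Monotone st := by
    apply monotone_nat_of_le_succ
    intro k
    rw [hs]; exact Set.subset_union_left
  have hc : ∀ k, (st k).Countable := by
    intro k
    induction k with
    | zero => exact Set.countable_empty
    | succ k ih =>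
      rw [hs]
      refine ih.union ?_
      have : Countable (st k) := ih
      refine (Set.countable_range
        (fun a : ι × List (st k) => op a.1 (a.2.map Subtype.val))).mono ?_
      rintro y ⟨i, l, hl, rfl⟩
      refine ⟨(i, l.attach.map fun x => ⟨x.1, hl x.1 x.2⟩), ?_⟩
      simp [List.map_map, Function.comp_def]
  refine ⟨⋃ k, st k, Set.countable_iUnion hc, ?_, ?_⟩
  · intro x hx
    obtain ⟨k, hk⟩ := Set.mem_iUnion.1 hx
    induction k generalizing x with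
    | zero => exact hk.elim
    | succ k ih =>
      rw [hs] at hk
      rcases hk with hk | ⟨i, l, hl, rfl⟩
      · exact ih x (Set.mem_iUnion.2 ⟨k, hk⟩) hk
      · exact hQ i l fun y hy => ih y (Set.mem_iUnion.2 ⟨k, hl y hy⟩) (hl y hy)
  · intro i l hl
    have : ∃ k, ∀ x ∈ l, x ∈ st k := by
      induction l with
      | nil => exact ⟨0, fun x hx => by simp at hx⟩
      | cons a l ih =>
        obtain ⟨k, hk⟩ := ih fun x hx => hl x (List.mem_cons_of_mem _ hx)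
        obtain ⟨m, hm⟩ := Set.mem_iUnion.1 (hl a (List.mem_cons_self ..))
        refine ⟨max k m, fun x hx => ?_⟩
        rcases List.mem_cons.1 hx with rfl | hx
        · exact hmono (le_max_right k m) hm
        · exact hmono (le_max_left k m) (hk x hx)
    obtain ⟨k, hk⟩ := this
    refine Set.mem_iUnion.2 ⟨k + 1, ?_⟩
    rw [hs]
    exact Or.inr ⟨i, l, hk, rfl⟩

/-- Rasiowa-Sikorski lemma. -/
theorem exists_generic {P : Type} [Preorder P] [OrderTop P] (𝒮 : Set (Set P))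
    (h : 𝒮.Countable) : ∃ G : Set P, ⊤ ∈ G ∧ (∀ p ∈ G, ∀ q, p ≤ q → q ∈ G) ∧
      (∀ p ∈ G, ∀ q ∈ G, ∃ r ∈ G, r ≤ p ∧ r ≤ q) ∧
      ∀ S ∈ 𝒮, ∃ p ∈ G, p ∈ S ∨ ∀ q ≤ p, q ∉ S := by
  obtain ⟨e, he⟩ := (h.insert ∅).exists_eq_range (Set.insert_nonempty _ _)
  have hd : ∀ (S : Set P) (p : P), ∃ r ≤ p, r ∈ S ∨ ∀ q ≤ r, q ∉ S := by
    intro S p
    by_cases hp : ∃ q ≤ p, q ∈ S
    · obtain ⟨q, h1, h2⟩ := hp
      exact ⟨q, h1, Or.inl h2⟩
    · push Not at hp
      exact ⟨p, le_rfl, Or.inr hp⟩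
  choose nx h1 h2 using hd
  let s : ℕ → P := fun n => Nat.rec ⊤ (fun k p => nx (e k) p) n
  have hs : Antitone s := antitone_nat_of_succ_le fun k => h1 (e k) (s k)
  refine ⟨{p | ∃ n, s n ≤ p}, ⟨0, le_rfl⟩, ?_, ?_, ?_⟩
  · rintro p ⟨n, hn⟩ q hq
    exact ⟨n, hn.trans hq⟩
  · rintro p ⟨n, hn⟩ q ⟨m, hm⟩
    exact ⟨s (max n m), ⟨_, le_rfl⟩, (hs (le_max_left n m)).trans hn,
      (hs (le_max_right n m)).trans hm⟩
  · intro S hS
    have : S ∈ Set.range e := he ▸ Set.mem_insert_of_mem _ hS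
    obtain ⟨k, rfl⟩ := this
    exact ⟨s (k + 1), ⟨k + 1, le_rfl⟩, h2 (e k) (s k)⟩

deriving instance Countable for Fml

/-- A symmetric system. -/
structure SymSys (P Γ : Type) [Preorder P] [OrderTop P] [Group Γ] [MulAction Γ P] where
  F : Filter Γ
  mono : ∀ (π : Γ) (p q : P), p ≤ q → π • p ≤ π • q
  top : ∀ π : Γ, π • (⊤ : P) = ⊤
  conj : ∀ π : Γ, Tendsto (fun ρ => π⁻¹ * ρ * π) F F

namespace Name

variable {P Γ : Type} [Preorder P] [OrderTop P] [Group Γ] [MulAction Γ P]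

/-- The name whose members are the given names, unconditionally. -/
def setN {α : Type} (A : α → Name P) : Name P := ⟨α, A, fun _ => ⊤⟩

theorem rel_setN (S : SymSys P Γ) {π : Γ} {α β : Type} {A : α → Name P} {B : β → Name P}
    (h1 : ∀ i, ∃ j, Rel π (A i) (B j)) (h2 : ∀ j, ∃ i, Rel π (A i) (B j)) :
    Rel π (setN A) (setN B) :=
  ⟨fun i => (h1 i).imp fun _ h => ⟨(S.top π).symm, h⟩,
    fun j => (h2 j).imp fun _ h => ⟨(S.top π).symm, h⟩⟩

theorem hs_setN (S : SymSys P Γ) {α : Type} {A : α → Name P}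
    (h1 : ∀ᶠ π in S.F, Rel π (setN A) (setN A)) (h2 : ∀ i, HS S.F (A i)) : HS S.F (setN A) :=
  ⟨h1, h2⟩

/-- Saturation of a family of names under the group. -/
def satN (Γ : Type) [Group Γ] [MulAction Γ P] {α : Type} (A : α → Name P) : Name P :=
  setN fun x : Γ × α => act x.1 (A x.2)

theorem hs_satN (S : SymSys P Γ) {α : Type} {A : α → Name P} (h : ∀ i, HS S.F (A i)) :
    HS S.F (satN Γ A) := by
  refine hs_setN S (Eventually.of_forall fun ρ => rel_setN S ?_ ?_)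
    fun x => (h x.2).act S.conj x.1
  · rintro ⟨π, i⟩
    refine ⟨(ρ * π, i), ?_⟩
    have := (rel_act π (A i)).inv.comp (rel_act (ρ * π) (A i))
    simpa using this
  · rintro ⟨π, i⟩
    refine ⟨(ρ⁻¹ * π, i), ?_⟩
    have := (rel_act (ρ⁻¹ * π) (A i)).inv.comp (rel_act π (A i))
    simpa using this

def upairN (σ τ : Name P) : Name P := setN fun b : Bool => cond b σ τ

theorem rel_upairN (S : SymSys P Γ) {π : Γ} {σ τ σ' τ' : Name P} (h1 : Rel π σ σ')
    (h2 : Rel π τ τ') : Rel π (upairN σ τ) (upairN σ' τ') :=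
  rel_setN S (fun b => ⟨b, by cases b; exacts [h2, h1]⟩) (fun b => ⟨b, by cases b; exacts [h2, h1]⟩)

theorem hs_upairN (S : SymSys P Γ) {σ τ : Name P} (h1 : HS S.F σ) (h2 : HS S.F τ) :
    HS S.F (upairN σ τ) := by
  refine hs_setN S ?_ fun b => by cases b; exacts [h2, h1]
  filter_upwards [h1.sym, h2.sym] with π a b using rel_upairN S a b

def niceN (τ : Name P) (T : Set (τ.Ty × P)) : Name P :=
  ⟨T, fun x => τ.ch x.1.1, fun x => x.1.2⟩

def sepN (F : Filter Γ) (φ : Fml) (l : List (Name P)) (τ : Name P) : Name P :=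
  niceN τ {x | x.2 ≤ τ.cd x.1 ∧ Frc F φ (τ.ch x.1 :: l) x.2}

theorem hs_sepN (S : SymSys P Γ) (φ : Fml) {l : List (Name P)} {τ : Name P}
    (hl : ∀ x ∈ l, HS S.F x) (hτ : HS S.F τ) : HS S.F (sepN S.F φ l τ) := by
  refine ⟨?_, fun x => hτ.ch _⟩
  filter_upwards [hs_list hl, hτ.sym] with π h1 h2
  rw [rel_iff] at h2
  constructor
  · rintro ⟨⟨i, p⟩, hp, hf⟩
    obtain ⟨j, e, r⟩ := h2.1 i
    refine ⟨⟨(j, π • p), ?_, Frc.rel S.mono S.conj (List.Forall₂.cons r h1) hf⟩, rfl, r⟩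
    change π • p ≤ τ.cd j
    rw [e]; exact S.mono π _ _ hp
  · rintro ⟨⟨j, q⟩, hq, hf⟩
    obtain ⟨i, e, r⟩ := h2.2 j
    refine ⟨⟨(i, π⁻¹ • q), ?_,
      Frc.rel S.mono S.conj (forall₂_inv (List.Forall₂.cons r h1)) hf⟩, ?_, r⟩
    · change π⁻¹ • q ≤ τ.cd i
      change q ≤ τ.cd j at hq
      rw [e] at hq
      simpa using S.mono π⁻¹ _ _ hq
    · change q = π • π⁻¹ • q
      simp

def powN (F : Filter Γ) (τ : Name P) : Name P :=
  satN Γ fun T : {T : Set (τ.Ty × P) // HS F (niceN τ T)} => niceN τ T.1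

theorem hs_powN (S : SymSys P Γ) (τ : Name P) : HS S.F (powN S.F τ) :=
  hs_satN S fun T => T.2

def unionN (Γ : Type) [Group Γ] [MulAction Γ P] (τ : Name P) : Name P :=
  satN Γ fun x : Σ i : τ.Ty, (τ.ch i).Ty => (τ.ch x.1).ch x.2

/-- Skolem witness for an existential formula. -/
noncomputable def sk (F : Filter Γ) (φ : Fml) (l : List (Name P)) (p : P) : Name P :=
  if h : ∃ σ, HS F σ ∧ Frc F φ (σ :: l) p then h.choose else empty

omit [OrderTop P] in
theorem hs_sk (F : Filter Γ) (φ : Fml) (l : List (Name P)) (p : P) : HS F (sk F φ l p) := by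
  unfold sk
  split_ifs with h
  · exact h.choose_spec.1
  · exact hs_empty F

omit [OrderTop P] in
theorem sk_spec {F : Filter Γ} {φ : Fml} {l : List (Name P)} {p : P}
    (h : Frc F (.ex φ) l p) : Frc F φ (sk F φ l p :: l) p := by
  have h' : ∃ σ, HS F σ ∧ Frc F φ (σ :: l) p := h
  unfold sk
  rw [dif_pos h']
  exact h'.choose_spec.2

noncomputable def collN (F : Filter Γ) (φ : Fml) (l : List (Name P)) (τ : Name P) : Name P :=
  satN Γ fun x : τ.Ty × P => sk F φ (τ.ch x.1 :: l) x.2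

theorem hs_collN (S : SymSys P Γ) (φ : Fml) (l : List (Name P)) (τ : Name P) :
    HS S.F (collN S.F φ l τ) :=
  hs_satN S fun _ => hs_sk _ _ _ _

/-- A member of `τ` chosen with a given property. -/
noncomputable def pick (τ : Name P) (C : τ.Ty → Prop) : Name P :=
  if h : ∃ i, C i then τ.ch h.choose else empty

omit [Preorder P] [OrderTop P] in
theorem hs_pick {F : Filter Γ} {τ : Name P} (h : HS F τ) (C : τ.Ty → Prop) :
    HS F (pick τ C) := by
  unfold pick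
  split_ifs with h'
  · exact h.ch _
  · exact hs_empty F

omit [Preorder P] [OrderTop P] in
theorem pick_spec {τ : Name P} {C : τ.Ty → Prop} (h : ∃ i, C i) :
    ∃ i, C i ∧ pick τ C = τ.ch i := by
  unfold pick
  rw [dif_pos h]
  exact ⟨_, h.choose_spec, rfl⟩

/-- An enumeration of the index type, injective when the type is countable. -/
noncomputable def enum (α : Type) : α → ℕ :=
  if h : ∃ e : α → ℕ, Function.Injective e then h.choose else fun _ => 0

theorem enum_inj (α : Type) [Countable α] : Function.Injective (enum α) := by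
  have h : ∃ e : α → ℕ, Function.Injective e := exists_injective_nat α
  unfold enum
  rw [dif_pos h]
  exact h.choose_spec

end Name

open Name

variable {P Γ : Type} [Preorder P] [OrderTop P] [Group Γ] [MulAction Γ P]

/-- Codes for the closure operations. -/
inductive Op (P ι : Type) : Type
  | base (i : ι) | emp | sk (φ : Fml) (p : P) | mw (p : P) | nw (p : P) | child (k : ℕ)
  | sep (φ : Fml) | coll (φ : Fml) | upair | union | pow
  deriving Countable

noncomputable def Op.ev (S : SymSys P Γ) {ι : Type} (base : ι → Name P) :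
    Op P ι → List (Name P) → Name P
  | .base i, _ => base i
  | .emp, _ => empty
  | .sk φ p, l => Name.sk S.F φ l p
  | .mw p, l => pick (l.getD 1 empty) fun j =>
      p ≤ (l.getD 1 empty).cd j ∧ FEq (l.getD 0 empty) ((l.getD 1 empty).ch j) p
  | .nw p, l => pick (l.getD 0 empty) fun i =>
      p ≤ (l.getD 0 empty).cd i ∧ ∀ r ≤ p, ¬ FMem ((l.getD 0 empty).ch i) (l.getD 1 empty) r
  | .child k, l => pick (l.getD 0 empty) fun i => enum _ i = k
  | .sep φ, l => sepN S.F φ l.tail (l.getD 0 empty)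
  | .coll φ, l => collN S.F φ l.tail (l.getD 0 empty)
  | .upair, l => upairN (l.getD 0 empty) (l.getD 1 empty)
  | .union, l => unionN Γ (l.getD 0 empty)
  | .pow, l => powN S.F (l.getD 0 empty)

/-- A countable set `N` of hereditarily symmetric names with the closure properties needed,
and a filter `G` that is generic for it. -/
structure Ctx (S : SymSys P Γ) where
  N : Set (Name P)
  G : Set P
  cnt : N.Countable
  hs : ∀ σ ∈ N, HS S.F σ
  emp : empty ∈ N
  sk : ∀ φ l p, (∀ x ∈ l, x ∈ N) → Name.sk S.F φ l p ∈ N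
  mw : ∀ σ ∈ N, ∀ τ ∈ N, ∀ p, FMem σ τ p → ∃ j, τ.ch j ∈ N ∧ p ≤ τ.cd j ∧ FEq σ (τ.ch j) p
  nw : ∀ σ ∈ N, ∀ τ ∈ N, ∀ p, (∃ i, p ≤ σ.cd i ∧ ∀ r ≤ p, ¬ FMem (σ.ch i) τ r) →
    ∃ i, σ.ch i ∈ N ∧ p ≤ σ.cd i ∧ ∀ r ≤ p, ¬ FMem (σ.ch i) τ r
  child : ∀ τ ∈ N, Countable τ.Ty → ∀ i, τ.ch i ∈ N
  sep : ∀ φ l, (∀ x ∈ l, x ∈ N) → ∀ τ ∈ N, sepN S.F φ l τ ∈ N
  coll : ∀ φ l, (∀ x ∈ l, x ∈ N) → ∀ τ ∈ N, collN S.F φ l τ ∈ N
  upair : ∀ σ ∈ N, ∀ τ ∈ N, upairN σ τ ∈ N
  union : ∀ τ ∈ N, unionN Γ τ ∈ N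
  pow : ∀ τ ∈ N, powN S.F τ ∈ N
  top : ⊤ ∈ G
  up : ∀ p ∈ G, ∀ q, p ≤ q → q ∈ G
  dir : ∀ p ∈ G, ∀ q ∈ G, ∃ r ∈ G, r ≤ p ∧ r ≤ q
  gfrc : ∀ φ l, (∀ x ∈ l, x ∈ N) → ∃ p ∈ G, Frc S.F φ l p ∨ ∀ q ≤ p, ¬ Frc S.F φ l q
  gne : ∀ σ ∈ N, ∀ τ ∈ N, ∃ p ∈ G,
    (∃ i, p ≤ σ.cd i ∧ ∀ r ≤ p, ¬ FMem (σ.ch i) τ r) ∨
      ∀ q ≤ p, ¬ ∃ i, q ≤ σ.cd i ∧ ∀ r ≤ q, ¬ FMem (σ.ch i) τ r

theorem exists_ctx [Countable P] (S : SymSys P Γ) {ι : Type} [Countable ι]
    (base : ι → Name P) (hb : ∀ i, HS S.F (base i)) (𝒮 : Set (Set P)) (h𝒮 : 𝒮.Countable) :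
    ∃ C : Ctx S, (∀ i, base i ∈ C.N) ∧ ∀ D ∈ 𝒮, ∃ p ∈ C.G, p ∈ D ∨ ∀ q ≤ p, q ∉ D := by
  obtain ⟨N, hc, hs, hcl⟩ := exists_closure (Op.ev S base) (HS S.F) (by
    intro o l hl
    have ht : ∀ x ∈ l.tail, HS S.F x := fun x hx => hl x (List.mem_of_mem_tail hx)
    cases o with
    | base i => exact hb i
    | emp => exact hs_empty _
    | sk φ p => exact hs_sk _ _ _ _
    | mw p => exact hs_pick (hs_getD hl 1) _
    | nw p => exact hs_pick (hs_getD hl 0) _
    | child k => exact hs_pick (hs_getD hl 0) _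
    | sep φ => exact hs_sepN S φ ht (hs_getD hl 0)
    | coll φ => exact hs_collN S _ _ _
    | upair => exact hs_upairN S (hs_getD hl 0) (hs_getD hl 1)
    | union => exact hs_satN S fun x => ((hs_getD hl 0).ch _).ch _
    | pow => exact hs_powN S _)
  have : Countable N := hc
  have c1 : (Set.range fun a : Fml × List N =>
      {p : P | Frc S.F a.1 (a.2.map Subtype.val) p}).Countable := Set.countable_range _
  have c2 : (Set.range fun a : N × N => {p : P | ∃ i, p ≤ a.1.1.cd i ∧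
      ∀ r ≤ p, ¬ FMem (a.1.1.ch i) a.2.1 r}).Countable := Set.countable_range _
  obtain ⟨G, g1, g2, g3, g4⟩ := exists_generic _ ((c1.union c2).union h𝒮)
  have one : ∀ σ ∈ N, ∀ x ∈ [σ], x ∈ N := fun σ h x hx => by
    rw [List.mem_singleton.1 hx]; exact h
  have two : ∀ σ ∈ N, ∀ τ ∈ N, ∀ x ∈ [σ, τ], x ∈ N := fun σ h τ h' x hx => by
    rcases List.mem_pair.1 hx with rfl | rfl <;> assumption
  have cons : ∀ l : List (Name P), (∀ x ∈ l, x ∈ N) → ∀ τ ∈ N, ∀ x ∈ τ :: l, x ∈ N :=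
    fun l hl τ h x hx => by
      rcases List.mem_cons.1 hx with rfl | hx
      exacts [h, hl x hx]
  refine ⟨{ N := N, G := G, cnt := hc, hs := hs
            emp := hcl .emp [] (by simp)
            sk := fun φ l p hl => hcl (.sk φ p) l hl
            mw := ?_, nw := ?_, child := ?_
            sep := fun φ l hl τ h => hcl (.sep φ) (τ :: l) (cons l hl τ h)
            coll := fun φ l hl τ h => hcl (.coll φ) (τ :: l) (cons l hl τ h)
            upair := fun σ h τ h' => hcl .upair [σ, τ] (two σ h τ h')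
            union := fun τ h => hcl .union [τ] (one τ h)
            pow := fun τ h => hcl .pow [τ] (one τ h)
            top := g1, up := g2, dir := g3, gfrc := ?_, gne := ?_ },
    fun i => hcl (.base i) [] (by simp), fun D hD => g4 D (Or.inr hD)⟩
  · intro σ h τ h' p hm
    obtain ⟨j, hj, e⟩ := pick_spec (τ := τ) (C := fun j => p ≤ τ.cd j ∧ FEq σ (τ.ch j) p) hm
    exact ⟨j, e ▸ hcl (.mw p) [σ, τ] (two σ h τ h'), hj⟩
  · intro σ h τ h' p hm
    obtain ⟨i, hi, e⟩ := pick_spec (τ := σ)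
      (C := fun i => p ≤ σ.cd i ∧ ∀ r ≤ p, ¬ FMem (σ.ch i) τ r) hm
    exact ⟨i, e ▸ hcl (.nw p) [σ, τ] (two σ h τ h'), hi⟩
  · intro τ h hcnt i
    obtain ⟨j, hj, e⟩ := pick_spec (τ := τ) (C := fun j => enum _ j = enum _ i) ⟨i, rfl⟩
    have hji : j = i := enum_inj _ hj
    subst hji
    exact e ▸ hcl (.child (enum _ j)) [τ] (one τ h)
  · intro φ l hl
    have := g4 {p : P | Frc S.F φ l p} (Or.inl (Or.inl
      ⟨(φ, l.attach.map fun x => ⟨x.1, hl x.1 x.2⟩), by simp [List.map_map, Function.comp_def]⟩))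
    exact this
  · intro σ h τ h'
    exact g4 _ (Or.inl (Or.inr ⟨(⟨σ, h⟩, ⟨τ, h'⟩), rfl⟩))

end Pool.Agent.Lib.MP_053343_lc
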