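import Mathlib
import Pool.Agent.Lib.MP_053343_lc.Ops

/-!
The symmetric model: values of names, the truth lemma, and the verification of ZF.
-/

namespace Pool.Agent.Lib.MP_053343_lc

open Filter Classical Name

variable {P Γ : Type} [Preorder P] [OrderTop P] [Group Γ] [MulAction Γ P] {S : SymSys P Γ}

def valP (N : Set (Name P)) (G : Set P) : Name P → PSet.{0}
  | ⟨α, A, B⟩ => ⟨{i : α // A i ∈ N ∧ B i ∈ G}, fun i => valP N G (A i.1)⟩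

namespace Ctx

variable (C : Ctx S)

def val (τ : Name P) : ZFSet.{0} := ZFSet.mk (valP C.N C.G τ)

theorem mem_val {τ : Name P} {x : ZFSet} :
    x ∈ C.val τ ↔ ∃ i, τ.ch i ∈ C.N ∧ τ.cd i ∈ C.G ∧ x = C.val (τ.ch i) := by
  cases τ with
  | mk α A B =>
    induction x using Quotient.inductionOn with
    | h x =>
      unfold val
      rw [ZFSet.mk_eq, ZFSet.mk_mem_iff]
      constructor
      · rintro ⟨⟨i, h1, h2⟩, h⟩
        exact ⟨i, h1, h2, ZFSet.sound h⟩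
      · rintro ⟨i, h1, h2, h⟩
        exact ⟨⟨i, h1, h2⟩, ZFSet.exact h⟩

theorem val_empty : C.val empty = ∅ := by
  rw [ZFSet.eq_empty]
  intro y hy
  obtain ⟨i, -⟩ := C.mem_val.1 hy
  exact i.elim

theorem dir3 {p q r : P} (hp : p ∈ C.G) (hq : q ∈ C.G) (hr : r ∈ C.G) :
    ∃ s ∈ C.G, s ≤ p ∧ s ≤ q ∧ s ≤ r := by
  obtain ⟨t, ht, h1, h2⟩ := C.dir p hp q hq
  obtain ⟨s, hs, h3, h4⟩ := C.dir t ht r hr
  exact ⟨s, hs, h3.trans h1, h3.trans h2, h4⟩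

theorem two {σ τ : Name P} (h : σ ∈ C.N) (h' : τ ∈ C.N) : ∀ x ∈ [σ, τ], x ∈ C.N := by
  intro x hx
  rcases List.mem_pair.1 hx with rfl | rfl <;> assumption

theorem cons {l : List (Name P)} (hl : ∀ x ∈ l, x ∈ C.N) {τ : Name P} (h : τ ∈ C.N) :
    ∀ x ∈ τ :: l, x ∈ C.N := by
  intro x hx
  rcases List.mem_cons.1 hx with rfl | hx
  exacts [h, hl x hx]

/-- If membership is forced densely below a condition of `G`, it is forced in `G`. -/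
theorem mem_dense {σ τ : Name P} (h : σ ∈ C.N) (h' : τ ∈ C.N) {p : P} (hp : p ∈ C.G)
    (hd : ∀ q ≤ p, ∃ r ≤ q, FMem σ τ r) :
    ∃ r ∈ C.G, ∃ j, τ.ch j ∈ C.N ∧ τ.cd j ∈ C.G ∧ FEq σ (τ.ch j) r := by
  obtain ⟨r, hr, h1 | h1⟩ := C.gfrc (.mem 0 1) [σ, τ] (C.two h h')
  · obtain ⟨j, a, b, c⟩ := C.mw σ h τ h' r h1
    exact ⟨r, hr, j, a, C.up r hr _ b, c⟩
  · obtain ⟨s, _, h2, h3⟩ := C.dir p hp r hr
    obtain ⟨t, h4, h5⟩ := hd s h2
    exact (h1 t (h4.trans h3) h5).elim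

theorem val_eq_iff {σ : Name P} : σ ∈ C.N → ∀ {τ : Name P}, τ ∈ C.N →
    (C.val σ = C.val τ ↔ ∃ p ∈ C.G, FEq σ τ p) := by
  induction σ using Name.ind with
  | h σ ih =>
    intro hσ τ hτ
    constructor
    · intro e
      obtain ⟨p, hp, h1⟩ := C.gne σ hσ τ hτ
      obtain ⟨p', hp', h2⟩ := C.gne τ hτ σ hσ
      rcases h1 with h1 | h1
      · exfalso
        obtain ⟨i, a, b, c⟩ := C.nw σ hσ τ hτ p h1
        have : C.val (σ.ch i) ∈ C.val τ := e ▸ C.mem_val.2 ⟨i, a, C.up p hp _ b, rfl⟩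
        obtain ⟨j, a', b', c'⟩ := C.mem_val.1 this
        obtain ⟨r, hr, h3⟩ := (ih i a a').1 c'
        obtain ⟨s, _, s1, s2, s3⟩ := C.dir3 hp hr b'
        exact c s s1 ⟨j, s3, h3.mono s2⟩
      rcases h2 with h2 | h2
      · exfalso
        obtain ⟨j, a, b, c⟩ := C.nw τ hτ σ hσ p' h2
        have : C.val (τ.ch j) ∈ C.val σ := e ▸ C.mem_val.2 ⟨j, a, C.up p' hp' _ b, rfl⟩
        obtain ⟨i, a', b', c'⟩ := C.mem_val.1 this
        obtain ⟨r, hr, h3⟩ := (ih i a' a).1 c'.symm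
        obtain ⟨s, _, s1, s2, s3⟩ := C.dir3 hp' hr b'
        exact c s s1 ⟨i, s3, h3.symm.mono s2⟩
      obtain ⟨s, hs, s1, s2⟩ := C.dir p hp p' hp'
      refine ⟨s, hs, feq_iff_mem.2 ⟨?_, ?_⟩⟩
      · intro i q hq hi
        by_contra hc
        push Not at hc
        exact h1 q (hq.trans s1) ⟨i, hi, hc⟩
      · intro j q hq hj
        by_contra hc
        push Not at hc
        exact h2 q (hq.trans s2) ⟨j, hj, hc⟩
    · rintro ⟨p, hp, h⟩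
      rw [feq_iff_mem] at h
      ext x
      constructor
      · intro hx
        obtain ⟨i, a, b, rfl⟩ := C.mem_val.1 hx
        obtain ⟨s, hs, s1, s2⟩ := C.dir p hp _ b
        obtain ⟨r, hr, j, a', b', c'⟩ := C.mem_dense a hτ hs
          fun q hq => h.1 i q (hq.trans s1) (hq.trans s2)
        exact C.mem_val.2 ⟨j, a', b', (ih i a a').2 ⟨r, hr, c'⟩⟩
      · intro hx
        obtain ⟨j, a, b, rfl⟩ := C.mem_val.1 hx
        obtain ⟨s, hs, s1, s2⟩ := C.dir p hp _ b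
        obtain ⟨r, hr, i, a', b', c'⟩ := C.mem_dense a hσ hs
          fun q hq => h.2 j q (hq.trans s1) (hq.trans s2)
        exact C.mem_val.2 ⟨i, a', b', ((ih i a' a).2 ⟨r, hr, c'.symm⟩).symm⟩

theorem val_mem_iff {σ τ : Name P} (hσ : σ ∈ C.N) (hτ : τ ∈ C.N) :
    C.val σ ∈ C.val τ ↔ ∃ p ∈ C.G, FMem σ τ p := by
  constructor
  · intro h
    obtain ⟨j, a, b, c⟩ := C.mem_val.1 h
    obtain ⟨r, hr, h3⟩ := (C.val_eq_iff hσ a).1 c
    obtain ⟨s, hs, s1, s2⟩ := C.dir r hr _ b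
    exact ⟨s, hs, j, s2, h3.mono s1⟩
  · rintro ⟨p, hp, h⟩
    obtain ⟨j, a, b, c⟩ := C.mw σ hσ τ hτ p h
    exact C.mem_val.2 ⟨j, a, C.up p hp _ b, (C.val_eq_iff hσ a).2 ⟨p, hp, c⟩⟩

instance : Countable C.N := C.cnt

noncomputable def M : ZFSet.{0} :=
  ZFSet.range fun σ : C.N => C.val σ

theorem mem_M {x : ZFSet} : x ∈ C.M ↔ ∃ σ ∈ C.N, C.val σ = x := by
  unfold M
  rw [ZFSet.mem_range]
  exact ⟨fun ⟨σ, h⟩ => ⟨σ.1, σ.2, h⟩, fun ⟨σ, h1, h⟩ => ⟨⟨σ, h1⟩, h⟩⟩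

theorem val_mem_M {σ : Name P} (h : σ ∈ C.N) : C.val σ ∈ C.M := C.mem_M.2 ⟨σ, h, rfl⟩

theorem getD_mem {l : List (Name P)} (h : ∀ x ∈ l, x ∈ C.N) (i : ℕ) : l.getD i empty ∈ C.N := by
  induction l generalizing i with
  | nil => exact C.emp
  | cons a l ih =>
    cases i with
    | zero => exact h a (List.mem_cons_self ..)
    | succ i => exact ih (fun x hx => h x (List.mem_cons_of_mem _ hx)) i

theorem getD_val (l : List (Name P)) (i : ℕ) :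
    (l.map C.val).getD i ∅ = C.val (l.getD i empty) := by
  induction l generalizing i with
  | nil => exact C.val_empty.symm
  | cons a l ih =>
    cases i with
    | zero => rfl
    | succ i => exact ih i

/-- The truth lemma. -/
theorem truth (φ : Fml) : ∀ {l : List (Name P)}, (∀ x ∈ l, x ∈ C.N) →
    (Sat C.M φ (l.map C.val) ↔ ∃ p ∈ C.G, Frc S.F φ l p) := by
  induction φ with
  | mem i j =>
    intro l hl
    simp only [Sat, Frc, getD_val]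
    exact C.val_mem_iff (C.getD_mem hl i) (C.getD_mem hl j)
  | eq i j =>
    intro l hl
    simp only [Sat, Frc, getD_val]
    exact C.val_eq_iff (C.getD_mem hl i) (C.getD_mem hl j)
  | neg φ ih =>
    intro l hl
    simp only [Sat, Frc]
    rw [ih hl]
    constructor
    · intro h
      obtain ⟨p, hp, h1 | h1⟩ := C.gfrc φ l hl
      · exact (h ⟨p, hp, h1⟩).elim
      · exact ⟨p, hp, h1⟩
    · rintro ⟨p, hp, h⟩ ⟨q, hq, h'⟩
      obtain ⟨r, _, r1, r2⟩ := C.dir p hp q hq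
      exact h r r1 (h'.mono r2)
  | and φ ψ ih1 ih2 =>
    intro l hl
    simp only [Sat, Frc]
    rw [ih1 hl, ih2 hl]
    constructor
    · rintro ⟨⟨p, hp, h⟩, q, hq, h'⟩
      obtain ⟨r, hr, r1, r2⟩ := C.dir p hp q hq
      exact ⟨r, hr, h.mono r1, h'.mono r2⟩
    · rintro ⟨p, hp, h, h'⟩
      exact ⟨⟨p, hp, h⟩, p, hp, h'⟩
  | ex φ ih =>
    intro l hl
    constructor
    · rintro ⟨x, hx, h⟩
      obtain ⟨σ, hσ, rfl⟩ := C.mem_M.1 hx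
      obtain ⟨p, hp, h'⟩ := (ih (C.cons hl hσ)).1 h
      exact ⟨p, hp, σ, C.hs σ hσ, h'⟩
    · rintro ⟨p, hp, h⟩
      have hσ := C.sk φ l p hl
      exact ⟨_, C.val_mem_M hσ, (ih (C.cons hl hσ)).2 ⟨p, hp, sk_spec h⟩⟩

theorem trans : C.M.IsTransitive := by
  intro x hx y hy
  obtain ⟨σ, _, rfl⟩ := C.mem_M.1 hx
  obtain ⟨i, a, _, rfl⟩ := C.mem_val.1 hy
  exact C.val_mem_M a

theorem exists_names {l : List ZFSet} (h : ∀ x ∈ l, x ∈ C.M) :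
    ∃ l' : List (Name P), (∀ x ∈ l', x ∈ C.N) ∧ l'.map C.val = l := by
  induction l with
  | nil => exact ⟨[], by simp, rfl⟩
  | cons a l ih =>
    obtain ⟨l', h1, rfl⟩ := ih fun x hx => h x (List.mem_cons_of_mem _ hx)
    obtain ⟨σ, hσ, rfl⟩ := C.mem_M.1 (h a (List.mem_cons_self ..))
    exact ⟨σ :: l', C.cons h1 hσ, rfl⟩

theorem setN_child {α : Type} [Countable α] {A : α → Name P} (h : setN A ∈ C.N) (i : α) :
    A i ∈ C.N := C.child _ h (inferInstanceAs (Countable α)) i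

theorem mem_val_setN {α : Type} [Countable α] {A : α → Name P} (h : setN A ∈ C.N) {x : ZFSet} :
    x ∈ C.val (setN A) ↔ ∃ i, x = C.val (A i) := by
  rw [mem_val]
  exact ⟨fun ⟨i, _, _, e⟩ => ⟨i, e⟩, fun ⟨i, e⟩ => ⟨i, C.setN_child h i, C.top, e⟩⟩

theorem mem_val_satN {α : Type} {A : α → Name P} {i : α} (h : A i ∈ C.N) :
    C.val (A i) ∈ C.val (satN Γ A) := by
  refine C.mem_val.2 ⟨((1 : Γ), i), ?_, C.top, ?_⟩
  · change act (1 : Γ) (A i) ∈ C.N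
    rwa [act_one]
  · change C.val (A i) = C.val (act (1 : Γ) (A i))
    rw [act_one]

theorem val_upairN {σ τ : Name P} (h : upairN σ τ ∈ C.N) :
    C.val (upairN σ τ) = {C.val σ, C.val τ} := by
  ext x
  rw [upairN, C.mem_val_setN h, ZFSet.mem_pair]
  constructor
  · rintro ⟨b, rfl⟩
    cases b
    exacts [Or.inr rfl, Or.inl rfl]
  · rintro (rfl | rfl)
    exacts [⟨true, rfl⟩, ⟨false, rfl⟩]

theorem val_sepN (φ : Fml) {l : List (Name P)} (hl : ∀ x ∈ l, x ∈ C.N) (τ : Name P) :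
    C.val (sepN S.F φ l τ) =
      ZFSet.sep (fun x => Sat C.M φ (x :: l.map C.val)) (C.val τ) := by
  ext x
  rw [ZFSet.mem_sep, mem_val]
  constructor
  · rintro ⟨⟨⟨i, p⟩, hp, hf⟩, a, b, rfl⟩
    exact ⟨C.mem_val.2 ⟨i, a, C.up p b _ hp, rfl⟩, (C.truth φ (C.cons hl a)).2 ⟨p, b, hf⟩⟩
  · rintro ⟨hx, hs⟩
    obtain ⟨i, a, b, rfl⟩ := C.mem_val.1 hx
    obtain ⟨p, hp, hf⟩ := (C.truth φ (C.cons hl a)).1 hs
    obtain ⟨r, hr, r1, r2⟩ := C.dir p hp _ b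
    exact ⟨⟨(i, r), r2, hf.mono r1⟩, a, hr, rfl⟩

theorem sep_mem (φ : Fml) (l : List ZFSet) (hl : ∀ x ∈ l, x ∈ C.M) (a : ZFSet) (ha : a ∈ C.M) :
    ZFSet.sep (fun x => Sat C.M φ (x :: l)) a ∈ C.M := by
  obtain ⟨l', h1, rfl⟩ := C.exists_names hl
  obtain ⟨τ, hτ, rfl⟩ := C.mem_M.1 ha
  rw [← C.val_sepN φ h1]
  exact C.val_mem_M (C.sep φ l' h1 τ hτ)

theorem union_mem (a : ZFSet) (ha : a ∈ C.M) : ZFSet.sUnion a ∈ C.M := by
  obtain ⟨τ, hτ, rfl⟩ := C.mem_M.1 ha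
  have h := C.sep_mem (.ex (.and (.mem 0 2) (.mem 1 0))) [C.val τ] (by simpa using ha) _
    (C.val_mem_M (C.union τ hτ))
  convert h using 1
  ext x
  simp only [ZFSet.mem_sUnion, ZFSet.mem_sep, Sat, List.getD_cons_zero, List.getD_cons_succ]
  constructor
  · rintro ⟨z, hz, hx⟩
    refine ⟨?_, z, C.trans _ ha hz, hz, hx⟩
    obtain ⟨i, a1, _, rfl⟩ := C.mem_val.1 hz
    obtain ⟨j, a2, _, rfl⟩ := C.mem_val.1 hx
    exact C.mem_val_satN (A := fun x : Σ i : τ.Ty, (τ.ch i).Ty => (τ.ch x.1).ch x.2)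
      (i := ⟨i, j⟩) a2
  · rintro ⟨_, z, _, hz, hx⟩
    exact ⟨z, hz, hx⟩

theorem power_mem (a : ZFSet) (ha : a ∈ C.M) : ∃ b ∈ C.M, ∀ x ∈ C.M, x ∈ b ↔ x ⊆ a := by
  obtain ⟨τ, hτ, rfl⟩ := C.mem_M.1 ha
  refine ⟨_, C.sep_mem (.neg (.ex (.and (.mem 0 1) (.neg (.mem 0 2))))) [C.val τ]
    (by simpa using ha) _ (C.val_mem_M (C.pow τ hτ)), ?_⟩
  intro x hx
  simp only [ZFSet.mem_sep, Sat, List.getD_cons_zero, List.getD_cons_succ]
  constructor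
  · rintro ⟨_, h⟩ z hz
    by_contra hc
    exact h ⟨z, C.trans _ hx hz, hz, hc⟩
  · intro h
    refine ⟨?_, fun ⟨z, _, h1, h2⟩ => h2 (h h1)⟩
    obtain ⟨ρ, hρ, rfl⟩ := C.mem_M.1 hx
    have hl : ∀ x ∈ [ρ], x ∈ C.N := by simpa using hρ
    have h1 := C.sep (.mem 0 1) [ρ] hl τ hτ
    have h2 : C.val (sepN S.F (.mem 0 1) [ρ] τ) = C.val ρ := by
      rw [C.val_sepN _ hl]
      ext z
      simp only [ZFSet.mem_sep, Sat, List.getD_cons_zero, List.getD_cons_succ, List.map_cons]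
      exact ⟨fun h => h.2, fun h' => ⟨h h', h'⟩⟩
    rw [← h2]
    exact C.mem_val_satN
      (A := fun T : {T : Set (τ.Ty × P) // HS S.F (niceN τ T)} => niceN τ T.1)
      (i := ⟨_, C.hs _ h1⟩) h1

theorem coll_mem (φ : Fml) (l : List ZFSet) (hl : ∀ x ∈ l, x ∈ C.M) (a : ZFSet) (ha : a ∈ C.M)
    (h : ∀ x ∈ a, ∃ y ∈ C.M, Sat C.M φ (y :: x :: l)) :
    ∃ b ∈ C.M, ∀ x ∈ a, ∃ y ∈ b, Sat C.M φ (y :: x :: l) := by
  obtain ⟨l', h1, rfl⟩ := C.exists_names hl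
  obtain ⟨τ, hτ, rfl⟩ := C.mem_M.1 ha
  refine ⟨_, C.val_mem_M (C.coll φ l' h1 τ hτ), ?_⟩
  intro x hx
  have h2 := h x hx
  obtain ⟨i, a1, _, rfl⟩ := C.mem_val.1 hx
  obtain ⟨p, hp, hf⟩ := (C.truth (.ex φ) (C.cons h1 a1)).1 h2
  have hσ := C.sk φ _ p (C.cons h1 a1)
  refine ⟨_, C.mem_val_satN (A := fun x : τ.Ty × P => Name.sk S.F φ (τ.ch x.1 :: l') x.2)
    (i := (i, p)) hσ, ?_⟩
  exact (C.truth φ (C.cons (C.cons h1 a1) hσ)).2 ⟨p, hp, sk_spec hf⟩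

theorem modelZF (hω : ZFSet.omega ∈ C.M) : ModelZF C.M where
  trans := C.trans
  ext := by
    intro a ha b hb h
    ext x
    exact ⟨fun hx => (h x (C.trans _ ha hx)).1 hx, fun hx => (h x (C.trans _ hb hx)).2 hx⟩
  found := by
    rintro a ha ⟨x, _, hx⟩
    obtain ⟨y, hy, e⟩ := ZFSet.regularity a (fun e => by simp [e] at hx)
    refine ⟨y, C.trans _ ha hy, hy, ?_⟩
    rintro ⟨z, _, h1, h2⟩
    have : z ∈ a ∩ y := ZFSet.mem_inter.2 ⟨h2, h1⟩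
    simp [e] at this
  pair := by
    intro a ha b hb
    obtain ⟨σ, hσ, rfl⟩ := C.mem_M.1 ha
    obtain ⟨τ, hτ, rfl⟩ := C.mem_M.1 hb
    rw [← C.val_upairN (C.upair σ hσ τ hτ)]
    exact C.val_mem_M (C.upair σ hσ τ hτ)
  union := C.union_mem
  power := C.power_mem
  inf := hω
  sep := C.sep_mem
  coll := C.coll_mem

end Ctx

end Pool.Agent.Lib.MP_053343_lc
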