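import Mathlib
import Pool.Agent.Lib.MP_053343_lc.Model

/-!
Canonical names for numerals, ordered pairs, rationals and cuts.
-/

namespace Pool.Agent.Lib.MP_053343_lc

open Filter Classical Name

theorem mem_nat {x : ZFSet} {n : ℕ} : x ∈ nat n ↔ ∃ i < n, x = nat i := by
  induction n with
  | zero => simp [nat]
  | succ n ih =>
    simp only [nat, ZFSet.mem_insert_iff, ih]
    constructor
    · rintro (rfl | ⟨i, hi, rfl⟩)
      exacts [⟨n, by omega, rfl⟩, ⟨i, by omega, rfl⟩]
    · rintro ⟨i, hi, rfl⟩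
      rcases Nat.lt_succ_iff_lt_or_eq.1 hi with h | rfl
      exacts [Or.inr ⟨i, h, rfl⟩, Or.inl rfl]

theorem nat_inj {m n : ℕ} (h : nat m = nat n) : m = n := by
  rcases lt_trichotomy m n with h1 | h1 | h1
  · exact (ZFSet.mem_irrefl (nat n) (mem_nat.2 ⟨m, h1, h.symm⟩)).elim
  · exact h1
  · exact (ZFSet.mem_irrefl (nat m) (mem_nat.2 ⟨n, h1, h⟩)).elim

theorem mk_ofNat (n : ℕ) : ZFSet.mk (PSet.ofNat n) = nat n := by
  induction n with
  | zero => rfl
  | succ n ih => rw [nat, ← ih]; rfl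

theorem mem_omega {x : ZFSet.{0}} : x ∈ ZFSet.omega ↔ ∃ n, x = nat n := by
  induction x using Quotient.inductionOn with
  | h x =>
    rw [ZFSet.omega, ZFSet.mk_eq, ZFSet.mk_mem_iff]
    constructor
    · rintro ⟨n, h⟩
      exact ⟨n.down, by rw [← mk_ofNat]; exact ZFSet.sound h⟩
    · rintro ⟨n, h⟩
      rw [← mk_ofNat] at h
      exact ⟨⟨n⟩, ZFSet.exact h⟩

theorem code_inj {q r : ℚ} (h : code q = code r) : q = r := by
  simp only [code, ZFSet.pair_inj] at h
  have h1 := nat_inj h.1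
  have h2 := nat_inj h.2.1
  have h3 := nat_inj h.2.2
  exact Rat.ext (by omega) h3

theorem mem_cut {x : ZFSet} {r : ℝ} : x ∈ cut r ↔ ∃ q : ℚ, (q : ℝ) < r ∧ x = code q := by
  unfold cut
  rw [ZFSet.mem_range]
  exact ⟨fun ⟨q, h⟩ => ⟨q.1, q.2, h.symm⟩, fun ⟨q, h1, h⟩ => ⟨⟨q, h1⟩, h.symm⟩⟩

theorem code_mem_cut {q : ℚ} {r : ℝ} : code q ∈ cut r ↔ (q : ℝ) < r := by
  rw [mem_cut]
  exact ⟨fun ⟨q', h1, h⟩ => by rwa [code_inj h], fun h => ⟨q, h, rfl⟩⟩

theorem pair_ne_nat (x y : ZFSet) (m : ℕ) : ZFSet.pair x y ≠ nat m := by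
  intro h
  cases m with
  | zero =>
    have : ({x} : ZFSet) ∈ ZFSet.pair x y := by simp [ZFSet.pair]
    rw [h] at this
    simp [nat] at this
  | succ m =>
    have : (∅ : ZFSet) ∈ nat (m + 1) := mem_nat.2 ⟨0, by omega, rfl⟩
    rw [← h] at this
    simp only [ZFSet.pair, ZFSet.mem_pair] at this
    rcases this with h1 | h1
    · have : x ∈ (∅ : ZFSet) := by rw [h1]; simp
      simp at this
    · have : x ∈ (∅ : ZFSet) := by rw [h1]; simp
      simp at this

variable {P Γ : Type} [Preorder P] [OrderTop P] [Group Γ] [MulAction Γ P]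

def natN (n : ℕ) : Name P := setN fun i : Fin n => natN i
  decreasing_by exact i.2

def pairN (σ τ : Name P) : Name P := upairN (upairN σ σ) (upairN σ τ)

def codeN (q : ℚ) : Name P := pairN (natN q.num.toNat) (pairN (natN (-q.num).toNat) (natN q.den))

def cutN (r : ℝ) : Name P := setN fun q : {q : ℚ // (q : ℝ) < r} => codeN q

theorem rel_setN_self (S : SymSys P Γ) {π : Γ} {α : Type} {A B : α → Name P}
    (h : ∀ i, Rel π (A i) (B i)) : Rel π (setN A) (setN B) :=
  rel_setN S (fun i => ⟨i, h i⟩) (fun i => ⟨i, h i⟩)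

theorem rel_natN (S : SymSys P Γ) (π : Γ) (n : ℕ) : Rel π (natN n : Name P) (natN n) := by
  induction n using Nat.strong_induction_on with
  | h n ih => rw [natN]; exact rel_setN_self S fun i => ih i i.2

theorem hs_natN (S : SymSys P Γ) (n : ℕ) : HS S.F (natN n : Name P) := by
  induction n using Nat.strong_induction_on with
  | h n ih =>
    have := rel_natN S (n := n)
    rw [natN] at this ⊢
    exact hs_setN S (Eventually.of_forall this) fun i => ih i i.2

theorem rel_pairN (S : SymSys P Γ) {π : Γ} {σ τ σ' τ' : Name P} (h1 : Rel π σ σ')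
    (h2 : Rel π τ τ') : Rel π (pairN σ τ) (pairN σ' τ') :=
  rel_upairN S (rel_upairN S h1 h1) (rel_upairN S h1 h2)

theorem hs_pairN (S : SymSys P Γ) {σ τ : Name P} (h1 : HS S.F σ) (h2 : HS S.F τ) :
    HS S.F (pairN σ τ) :=
  hs_upairN S (hs_upairN S h1 h1) (hs_upairN S h1 h2)

theorem rel_codeN (S : SymSys P Γ) (π : Γ) (q : ℚ) : Rel π (codeN q : Name P) (codeN q) :=
  rel_pairN S (rel_natN S π _) (rel_pairN S (rel_natN S π _) (rel_natN S π _))

theorem hs_codeN (S : SymSys P Γ) (q : ℚ) : HS S.F (codeN q : Name P) :=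
  hs_pairN S (hs_natN S _) (hs_pairN S (hs_natN S _) (hs_natN S _))

theorem rel_cutN (S : SymSys P Γ) (π : Γ) (r : ℝ) : Rel π (cutN r : Name P) (cutN r) :=
  rel_setN_self S fun _ => rel_codeN S π _

theorem hs_cutN (S : SymSys P Γ) (r : ℝ) : HS S.F (cutN r : Name P) :=
  hs_setN S (Eventually.of_forall fun π => rel_cutN S π r) fun _ => hs_codeN S _

theorem hs_omegaN (S : SymSys P Γ) : HS S.F (setN natN : Name P) :=
  hs_setN S (Eventually.of_forall fun π => rel_setN_self S (rel_natN S π)) (hs_natN S)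

namespace Ctx

variable {S : SymSys P Γ} (C : Ctx S)

theorem val_natN (n : ℕ) : natN n ∈ C.N → C.val (natN n) = nat n := by
  induction n using Nat.strong_induction_on with
  | h n ih =>
    intro h
    rw [natN] at h ⊢
    ext x
    rw [C.mem_val_setN h, mem_nat]
    constructor
    · rintro ⟨i, rfl⟩
      exact ⟨i, i.2, ih i i.2 (C.setN_child h i)⟩
    · rintro ⟨i, hi, rfl⟩
      exact ⟨⟨i, hi⟩, (ih i hi (C.setN_child h ⟨i, hi⟩)).symm⟩

theorem pairN_left {σ τ : Name P} (h : pairN σ τ ∈ C.N) : σ ∈ C.N :=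
  C.setN_child (A := fun b : Bool => cond b σ τ) (C.setN_child h false) true

theorem pairN_right {σ τ : Name P} (h : pairN σ τ ∈ C.N) : τ ∈ C.N :=
  C.setN_child (A := fun b : Bool => cond b σ τ) (C.setN_child h false) false

theorem val_pairN {σ τ : Name P} (h : pairN σ τ ∈ C.N) :
    C.val (pairN σ τ) = ZFSet.pair (C.val σ) (C.val τ) := by
  have h1 : upairN σ σ ∈ C.N := C.setN_child h true
  have h2 : upairN σ τ ∈ C.N := C.setN_child h false
  rw [pairN, C.val_upairN h, C.val_upairN h1, C.val_upairN h2, ZFSet.pair_eq_singleton]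
  rfl

theorem val_codeN (q : ℚ) (h : codeN q ∈ C.N) : C.val (codeN q) = code q := by
  have h1 := C.pairN_right h
  rw [codeN, C.val_pairN h, C.val_pairN h1, C.val_natN _ (C.pairN_left h),
    C.val_natN _ (C.pairN_left h1), C.val_natN _ (C.pairN_right h1), code]

theorem val_cutN (r : ℝ) (h : cutN r ∈ C.N) : C.val (cutN r) = cut r := by
  ext x
  rw [cutN, C.mem_val_setN h, mem_cut]
  constructor
  · rintro ⟨q, rfl⟩
    exact ⟨q.1, q.2, C.val_codeN _ (C.setN_child h q)⟩
  · rintro ⟨q, hq, rfl⟩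
    exact ⟨⟨q, hq⟩, (C.val_codeN _ (C.setN_child h ⟨q, hq⟩)).symm⟩

theorem val_omegaN (h : setN natN ∈ C.N) : C.val (setN natN) = ZFSet.omega := by
  ext x
  rw [C.mem_val_setN h, mem_omega]
  exact exists_congr fun n => by rw [C.val_natN n (C.setN_child h n)]

end Ctx

end Pool.Agent.Lib.MP_053343_lc
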