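import Mathlib
import Pool.Agent.Lib.MP_053343_lc.Defs

/-!
The axiom of countable multiple choice in a transitive set `M`.
-/

namespace Pool.Agent.Lib.MP_053343_lc

/-- The sequence `C` is an element of `M`. -/
def SeqIn (M : ZFSet.{0}) (C : ℕ → ZFSet.{0}) : Prop :=
  ∃ g ∈ M, ∀ z, z ∈ g ↔ ∃ n, z = ZFSet.pair (nat n) (C n)

/-- Countable multiple choice in `M`: every sequence in `M` of non-empty sets has a sequence in
`M` of non-empty finite subsets. -/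
def CMC (M : ZFSet.{0}) : Prop :=
  ∀ C : ℕ → ZFSet.{0}, SeqIn M C → (∀ n, ∃ x, x ∈ C n) →
    ∃ F : ℕ → ZFSet.{0}, SeqIn M F ∧
      ∀ n, (∃ x, x ∈ F n) ∧ {x | x ∈ F n}.Finite ∧ F n ⊆ C n

end Pool.Agent.Lib.MP_053343_lc
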