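import Mathlib
import Pool.Agent.Shared.InModel.Num
import Pool.Agent.Lib.MP_053343_lc.CmcDefs

/-!
A space built from a sequence of non-empty sets: the point at infinity is a zero-set only if the
sequence has a multiple choice function.
-/

namespace Pool.Agent.Lib.MP_053343_lc.Cmc

open Pool.Agent.Shared.InModel

universe u

section Comb

variable {α : Type u}

/-- `t` is a transversal of the family `H` inside `P`. -/
def Tr (P : α → Prop) (H : List α → Prop) (t : List α) : Prop :=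
  (∀ a, a ∈ t → P a) ∧ ∀ L, H L → ∃ a, a ∈ t ∧ a ∈ L

theorem fin_aux (P : α → Prop) (H : List α → Prop) (τ : ℕ) (hτ : ∀ t, Tr P H t → τ ≤ t.length) :
    ∀ (j : ℕ) (s : Finset α), τ ≤ s.card + j → (∀ a ∈ s, P a) →
      {a | ∃ t, Tr P H t ∧ t.length ≤ τ ∧ (∀ b ∈ s, b ∈ t) ∧ a ∈ t}.Finite := by
  classical
  have base : ∀ s : Finset α, τ ≤ s.card →
      {a | ∃ t, Tr P H t ∧ t.length ≤ τ ∧ (∀ b ∈ s, b ∈ t) ∧ a ∈ t}.Finite := by
    intro s hs
    refine s.finite_toSet.subset ?_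
    rintro a ⟨t, -, h1, h2, h3⟩
    have e : s = t.toFinset := Finset.eq_of_subset_of_card_le
      (fun b hb => List.mem_toFinset.2 (h2 b hb)) ((List.toFinset_card_le t).trans (h1.trans hs))
    rw [e]
    simpa using h3
  intro j
  induction j with
  | zero => exact fun s hs _ => base s hs
  | succ j ih =>
    intro s hs hP
    by_cases h : τ ≤ s.card
    · exact base s h
    have h1 : ¬ Tr P H s.toList := fun c => h (by simpa using hτ _ c)
    simp only [Tr, not_and, not_forall, not_exists] at h1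
    obtain ⟨L, hL, h2⟩ := h1 fun a ha => hP a (by simpa using ha)
    have hfin : {b | b ∈ L ∧ P b}.Finite := L.finite_toSet.subset fun b hb => hb.1
    refine (hfin.biUnion (t := fun b => {a | ∃ t, Tr P H t ∧ t.length ≤ τ ∧
      (∀ c ∈ insert b s, c ∈ t) ∧ a ∈ t}) fun b hb => ih _ ?_ ?_).subset ?_
    · have : b ∉ s := fun c => h2 b (by simpa using c) hb.1
      rw [Finset.card_insert_of_notMem this]
      omega
    · intro c hc
      rcases Finset.mem_insert.1 hc with rfl | hc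
      · exact hb.2
      · exact hP c hc
    · rintro a ⟨t, h3, h4, h5, h6⟩
      obtain ⟨b, hb, hb'⟩ := h3.2 L hL
      refine Set.mem_biUnion (x := b) ⟨hb', h3.1 b hb⟩ ⟨t, h3, h4, fun c hc => ?_, h6⟩
      rcases Finset.mem_insert.1 hc with rfl | hc
      · exact hb
      · exact h5 c hc

/-- Elements of transversals of least length. -/
def Mn (P : α → Prop) (H : List α → Prop) (a : α) : Prop :=
  ∃ t, Tr P H t ∧ (∀ t', Tr P H t' → t.length ≤ t'.length) ∧ a ∈ t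

theorem mn_spec (P : α → Prop) (H : List α → Prop) (h1 : ∃ L, H L) (h2 : ∃ t, Tr P H t) :
    (∃ a, Mn P H a) ∧ {a | Mn P H a}.Finite := by
  classical
  have ex : ∃ n, ∃ t, Tr P H t ∧ t.length = n := let ⟨t, ht⟩ := h2; ⟨_, t, ht, rfl⟩
  obtain ⟨t, ht, e⟩ := Nat.find_spec ex
  have hmin : ∀ t', Tr P H t' → Nat.find ex ≤ t'.length := fun t' h => Nat.find_min' ex ⟨t', h, rfl⟩
  obtain ⟨L, hL⟩ := h1
  obtain ⟨a, ha, -⟩ := ht.2 L hL
  refine ⟨⟨a, t, ht, fun t' h => e ▸ hmin t' h, ha⟩,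
    (fin_aux P H _ hmin (Nat.find ex) ∅ (by simp) (by simp)).subset ?_⟩
  rintro b ⟨s, h3, h4, h5⟩
  exact ⟨s, h3, e ▸ h4 t ht, by simp, h5⟩

end Comb

/-- The points. -/
abbrev T (α : Type u) : Type u := Option (ℕ × Option (ℕ × List α × ℕ))

variable {α : Type u}

/-- The limit points. -/
def q (n : ℕ) : T α := some (n, none)

/-- The isolated points. -/
def d (n i : ℕ) (y : List α) (k : ℕ) : T α := some (n, some (i, y, k))

theorem cases_T (x : T α) : x = none ∨ (∃ n, x = q n) ∨ ∃ n i y k, x = d n i y k := by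
  rcases x with _ | ⟨n, _ | ⟨i, y, k⟩⟩
  · exact Or.inl rfl
  · exact Or.inr (Or.inl ⟨n, rfl⟩)
  · exact Or.inr (Or.inr ⟨n, i, y, k, rfl⟩)

/-- The isolated points in a basic neighbourhood of `q n`. -/
def Nb (C : ℕ → α → Prop) (n : ℕ) (L : List α) (m : ℕ) (j i : ℕ) (y : List α) (k : ℕ) : Prop :=
  m ≤ k ∧ ((j = n ∧ ∀ a, a ∈ y → a ∉ L) ∨ (j + 1 = n ∧ i ≤ j ∧ ∀ a, a ∈ L → C i a → a ∈ y))

/-- Open sets. -/
def Op (C : ℕ → α → Prop) (U : T α → Prop) : Prop :=
  (∀ n, U (q n) → ∃ L m, ∀ j i y k, Nb C n L m j i y k → U (d j i y k)) ∧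
    (U none → ∃ n, ∀ m, n ≤ m → U (q m) ∧ ∀ i y k, U (d m i y k))

variable {C : ℕ → α → Prop}

theorem Nb.mono {n m m' j i k : ℕ} {L L' y : List α} (h : Nb C n L' m' j i y k) (hm : m ≤ m')
    (hL : ∀ a, a ∈ L → a ∈ L') : Nb C n L m j i y k :=
  ⟨hm.trans h.1, h.2.imp (fun c => ⟨c.1, fun a ha hb => c.2 a ha (hL a hb)⟩)
    fun c => ⟨c.1, c.2.1, fun a ha => c.2.2 a (hL a ha)⟩⟩

theorem Op.inter {U V : T α → Prop} (hU : Op C U) (hV : Op C V) : Op C fun x => U x ∧ V x := by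
  constructor
  · rintro n ⟨h1, h2⟩
    obtain ⟨L, m, h⟩ := hU.1 n h1
    obtain ⟨L', m', h'⟩ := hV.1 n h2
    exact ⟨L ++ L', max m m', fun j i y k hk =>
      ⟨h j i y k (hk.mono (le_max_left _ _) fun _ => List.mem_append_left _),
        h' j i y k (hk.mono (le_max_right _ _) fun _ => List.mem_append_right _)⟩⟩
  · rintro ⟨h1, h2⟩
    obtain ⟨n, h⟩ := hU.2 h1
    obtain ⟨n', h'⟩ := hV.2 h2
    refine ⟨max n n', fun m hm => ?_⟩
    have a := h m ((le_max_left _ _).trans hm)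
    have b := h' m ((le_max_right _ _).trans hm)
    exact ⟨⟨a.1, b.1⟩, fun i y k => ⟨a.2 i y k, b.2 i y k⟩⟩

theorem Op.of_loc {U : T α → Prop} (h : ∀ x, U x → ∃ V, Op C V ∧ V x ∧ ∀ y, V y → U y) :
    Op C U := by
  constructor
  · intro n hn
    obtain ⟨V, h1, h2, h3⟩ := h _ hn
    obtain ⟨L, m, h⟩ := h1.1 n h2
    exact ⟨L, m, fun j i y k hk => h3 _ (h j i y k hk)⟩
  · intro hn
    obtain ⟨V, h1, h2, h3⟩ := h _ hn
    obtain ⟨n, h⟩ := h1.2 h2
    exact ⟨n, fun m hm => ⟨h3 _ (h m hm).1, fun i y k => h3 _ ((h m hm).2 i y k)⟩⟩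

/-- A basic neighbourhood of `q n`. -/
def NQ (C : ℕ → α → Prop) (n : ℕ) (L : List α) (m : ℕ) (x : T α) : Prop :=
  x = q n ∨ ∃ j i y k, x = d j i y k ∧ Nb C n L m j i y k

/-- A neighbourhood of the point at infinity. -/
def NI (n : ℕ) (L : List α) (x : T α) : Prop :=
  x = none ∨ (∃ m, x = q m ∧ n < m) ∨
    ∃ j i y k, x = d j i y k ∧ (n < j ∨ (j = n ∧ ∃ a, a ∈ y ∧ a ∈ L))

/-- A neighbourhood of the point at infinity defined without a choice. -/
def NW (n : ℕ) (x : T α) : Prop :=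
  x = none ∨ (∃ m, x = q m ∧ n < m) ∨ ∃ j i y k, x = d j i y k ∧ n ≤ j

theorem op_NQ (n : ℕ) (L : List α) (m : ℕ) : Op C (NQ C n L m) := by
  constructor
  · intro j hj
    have e : j = n := by simpa [NQ, q, d] using hj
    subst e
    exact ⟨L, m, fun j i y k h => Or.inr ⟨j, i, y, k, rfl, h⟩⟩
  · intro h
    simp [NQ, q, d] at h

theorem op_NW (n : ℕ) : Op C (NW n) := by
  constructor
  · intro j hj
    have e : n < j := by simpa [NW, q, d] using hj
    refine ⟨[], 0, fun j' i y k h => Or.inr (Or.inr ⟨j', i, y, k, rfl, ?_⟩)⟩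
    rcases h.2 with h | h <;> omega
  · intro _
    exact ⟨n + 1, fun m hm => ⟨Or.inr (Or.inl ⟨m, rfl, hm⟩),
      fun i y k => Or.inr (Or.inr ⟨m, i, y, k, rfl, by omega⟩)⟩⟩

theorem op_d (n i : ℕ) (y : List α) (k : ℕ) : Op C fun x => x = d n i y k := by
  constructor
  · intro j hj
    simp [q, d] at hj
  · intro h
    simp [d] at h

theorem cl_d (n i : ℕ) (y : List α) (k : ℕ) : Op C fun x => ¬ x = d n i y k := by
  constructor
  · intro j _
    refine ⟨[], k + 1, fun j' i' y' k' h e => ?_⟩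
    have := h.1
    simp only [d, Option.some.injEq, Prod.mk.injEq] at e
    omega
  · intro _
    refine ⟨n + 1, fun m hm => ⟨by simp [q, d], fun i' y' k' e => ?_⟩⟩
    simp only [d, Option.some.injEq, Prod.mk.injEq] at e
    omega

theorem cl_NQ (n : ℕ) (L : List α) (m : ℕ) (hL : ∀ i ≤ n, ∃ a, a ∈ L ∧ C i a) :
    Op C fun x => ¬ NQ C n L m x := by
  constructor
  · intro j hj
    have e : j ≠ n := by simpa [NQ, q, d] using hj
    refine ⟨L, 0, fun j' i y k h c => ?_⟩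
    have c' : Nb C n L m j' i y k := by simpa [NQ, q, d] using c
    rcases h.2 with h | h <;> rcases c'.2 with c | c
    · omega
    · obtain ⟨a, h1, h2⟩ := hL i (by omega)
      exact h.2 a (c.2.2 a h1 h2) h1
    · obtain ⟨a, h1, h2⟩ := hL i (by omega)
      exact c.2 a (h.2.2 a h1 h2) h1
    · omega
  · intro _
    refine ⟨n + 1, fun j hj => ⟨fun c => ?_, fun i y k c => ?_⟩⟩
    · have : j = n := by simpa [NQ, q, d] using c
      omega
    · have c' : Nb C n L m j i y k := by simpa [NQ, q, d] using c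
      rcases c'.2 with c | c <;> omega

theorem op_NI (n : ℕ) (L : List α) (hL : ∀ i ≤ n, ∃ a, a ∈ L ∧ C i a) : Op C (NI n L) := by
  constructor
  · intro j hj
    have e : n < j := by simpa [NI, q, d] using hj
    refine ⟨L, 0, fun j' i y k h => Or.inr (Or.inr ⟨j', i, y, k, rfl, ?_⟩)⟩
    rcases h.2 with h | h
    · omega
    · by_cases c : j' = n
      · obtain ⟨a, h1, h2⟩ := hL i (by omega)
        exact Or.inr ⟨c, a, h.2.2 a h1 h2, h1⟩
      · omega
  · intro _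
    exact ⟨n + 1, fun m hm => ⟨Or.inr (Or.inl ⟨m, rfl, hm⟩),
      fun i y k => Or.inr (Or.inr ⟨m, i, y, k, rfl, Or.inl hm⟩)⟩⟩

theorem cl_NI (n : ℕ) (L : List α) : Op C fun x => ¬ NI n L x := by
  constructor
  · intro j hj
    have e : j ≤ n := by simpa [NI, q, d] using hj
    refine ⟨L, 0, fun j' i y k h c => ?_⟩
    have c' : n < j' ∨ (j' = n ∧ ∃ a, a ∈ y ∧ a ∈ L) := by simpa [NI, q, d] using c
    rcases h.2 with h | h <;> rcases c' with c | c
    · omega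
    · obtain ⟨-, a, h1, h2⟩ := c
      exact h.2 a h1 h2
    · omega
    · omega
  · intro h
    exact (h (Or.inl rfl)).elim

theorem exists_list (ne : ∀ n, ∃ a, C n a) (n : ℕ) : ∃ L : List α, ∀ i ≤ n, ∃ a, a ∈ L ∧ C i a := by
  choose c hc using ne
  exact ⟨(List.range (n + 1)).map c, fun i hi =>
    ⟨c i, List.mem_map.2 ⟨i, List.mem_range.2 (by omega), rfl⟩, hc i⟩⟩

variable {M : ZFSet.{0}} [Mdl M] [Cd M α]

@[fun_prop] theorem mf_q {β : Type*} [Cd M β] {f : β → ℕ} (hf : MF M f) :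
    MF M fun x => (q (f x) : T α) := by
  unfold q; fun_prop

@[fun_prop] theorem mf_d {β : Type*} [Cd M β] {f g k : β → ℕ} {y : β → List α} (hf : MF M f)
    (hg : MF M g) (hy : MF M y) (hk : MF M k) : MF M fun x => d (f x) (g x) (y x) (k x) := by
  unfold d; fun_prop

/-- Zero-dimensionality, with clopen sets in `M`. -/
theorem zero_dim (hC : MF M fun p : ℕ × α => C p.1 p.2) (ne : ∀ n, ∃ a, C n a) {U : T α → Prop}
    (hU : Op C U) {x : T α} (hx : U x) :
    ∃ K : T α → Prop, MF M K ∧ Op C K ∧ (Op C fun y => ¬ K y) ∧ K x ∧ ∀ y, K y → U y := by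
  let c : ℕ → PM M α := PM.lam C hC
  rcases cases_T x with rfl | ⟨n, rfl⟩ | ⟨n, i, y, k, rfl⟩
  · obtain ⟨n, hn⟩ := hU.2 hx
    obtain ⟨L, hL⟩ := exists_list ne n
    refine ⟨NI n L, by unfold NI; fun_prop, op_NI n L hL, cl_NI n L, Or.inl rfl, ?_⟩
    rintro y (rfl | ⟨m, rfl, h⟩ | ⟨j, i, y, k, rfl, h⟩)
    · exact hx
    · exact (hn m h.le).1
    · exact (hn j (by omega)).2 i y k
  · obtain ⟨L, m, h⟩ := hU.1 n hx
    obtain ⟨L', hL⟩ := exists_list ne n
    refine ⟨NQ C n (L ++ L') m, ?_, op_NQ _ _ _, cl_NQ _ _ _ fun i hi => ?_, Or.inl rfl, ?_⟩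
    · change MF M (NQ (fun i a => a ∈ c i) n (L ++ L') m)
      unfold NQ Nb
      fun_prop
    · obtain ⟨a, h1, h2⟩ := hL i hi
      exact ⟨a, by simp [h1], h2⟩
    · rintro y (rfl | ⟨j, i, y, k, rfl, hk⟩)
      · exact hx
      · exact h j i y k (hk.mono le_rfl fun _ => List.mem_append_left _)
  · exact ⟨fun x => x = d n i y k, by fun_prop, op_d _ _ _ _, cl_d _ _ _ _, rfl,
      fun y e => e ▸ hx⟩

/-- Every point is a `G_δ`, through a sequence in `M`. -/
theorem pseudo (x : T α) :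
    ∃ G : ℕ → T α → Prop, (MF M fun p : ℕ × T α => G p.1 p.2) ∧ (∀ n, Op C (G n)) ∧
      ∀ y, (∀ n, G n y) ↔ y = x := by
  rcases cases_T x with rfl | ⟨n, rfl⟩ | ⟨n, i, y, k, rfl⟩
  · refine ⟨NW, by unfold NW; fun_prop, op_NW, fun y => ⟨fun h => ?_, fun e n => Or.inl e⟩⟩
    rcases cases_T y with rfl | ⟨n, rfl⟩ | ⟨n, i, y, k, rfl⟩
    · rfl
    · simpa [NW, q, d] using h n
    · simpa [NW, q, d] using h (n + 1)
  · refine ⟨NQ C n [], ?_, op_NQ _ _, fun y => ⟨fun h => ?_, fun e n => Or.inl e⟩⟩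
    · simp only [NQ, Nb, List.not_mem_nil, false_imp_iff]
      fun_prop
    · rcases h 0 with e | ⟨j, i, y, k, rfl, -⟩
      · exact e
      · have : Nb C n [] (k + 1) j i y k := by simpa [NQ, q, d] using h (k + 1)
        exact absurd this.1 (by omega)
  · exact ⟨fun _ x => x = d n i y k, by fun_prop, fun _ => op_d _ _ _ _,
      fun y => ⟨fun h => h 0, fun e _ => e⟩⟩

theorem mf_op (hC : MF M fun p : ℕ × α => C p.1 p.2) :
    MF M fun U : PM M (T α) => Op C fun x => x ∈ U := by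
  let c : ℕ → PM M α := PM.lam C hC
  change MF M fun U : PM M (T α) => Op (fun i a => a ∈ c i) fun x => x ∈ U
  unfold Op Nb
  fun_prop

@[fun_prop] theorem mf_ltR {β : Type*} [Cd M β] {f g : β → RM M} (hf : MF M f) (hg : MF M g) :
    MF M fun x => (f x).1 < (g x).1 :=
  MF.of_iff (p := fun x => ∃ r : ℚ, ¬ (r : ℝ) < (f x).1 ∧ (r : ℝ) < (g x).1) (by fun_prop)
    fun _ => ⟨fun h => let ⟨r, h1, h2⟩ := exists_rat_btwn h; ⟨r, h1.not_gt, h2⟩,
      fun ⟨_, h1, h2⟩ => (not_lt.1 h1).trans_lt h2⟩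

/-- A family of sets separating the two ends of infinitely many blocks gives a multiple choice
function. -/
theorem choice_of_sep (hC : MF M fun p : ℕ × α => C p.1 p.2) (S : ℕ → T α → Prop)
    (hS : MF M fun p : ℕ × T α => S p.1 p.2)
    (h : ∀ i, ∃ n, i ≤ n ∧ (∃ L m, ∀ j i y k, Nb C n L m j i y k → S n (d j i y k)) ∧
      ∃ L m, ∀ j i y k, Nb C (n + 1) L m j i y k → ¬ S n (d j i y k)) :
    ∃ R : ℕ → α → Prop, (MF M fun p : ℕ × α => R p.1 p.2) ∧
      ∀ i, (∃ a, R i a) ∧ {a | R i a}.Finite ∧ ∀ a, R i a → C i a := by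
  classical
  let c : ℕ → PM M α := PM.lam C hC
  let s : ℕ → PM M (T α) := PM.lam S hS
  let H : ℕ × ℕ → List α → Prop := fun p L =>
    ∃ m, ∀ y k, m ≤ k → (∀ a, a ∈ y → a ∉ L) → d p.1 p.2 y k ∈ s p.1
  have hH : MF M fun p : (ℕ × ℕ) × List α => H p.1 p.2 := by
    simp only [H]
    fun_prop
  let h0 : ℕ × ℕ → PM M (List α) := PM.lam H hH
  let G : ℕ × ℕ → Prop := fun p => (∃ L, L ∈ h0 p) ∧ ∃ t, Tr (· ∈ c p.2) (· ∈ h0 p) t
  have hG : MF M G := by
    simp only [G, Tr]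
    fun_prop
  let g : PM M (ℕ × ℕ) := PM.of G hG
  have ex : ∀ i, ∃ n, G (n, i) := fun i => by
    obtain ⟨n, hn, ⟨L, m, h1⟩, L', m', h2⟩ := h i
    refine ⟨n, ⟨L, m, fun y k hk hy => h1 n i y k ⟨hk, Or.inl ⟨rfl, hy⟩⟩⟩,
      L'.filter fun a => C i a, fun a ha =>
        (of_decide_eq_true (List.mem_filter.1 ha).2 : C i a), ?_⟩
    rintro L'' ⟨m'', h3⟩
    by_contra hc
    refine h2 n i (L'.filter fun a => C i a) (max m' m'') ⟨le_max_left _ _, Or.inr ⟨rfl, hn,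
      fun a ha hb => List.mem_filter.2 ⟨ha, by simpa using hb⟩⟩⟩
      (h3 _ _ (le_max_right _ _) fun a ha hb => hc ⟨a, ha, hb⟩)
  refine ⟨fun i a => ∃ n, (n, i) ∈ g ∧ (∀ n', (n', i) ∈ g → n ≤ n') ∧
    Mn (· ∈ c i) (· ∈ h0 (n, i)) a, ?_, fun i => ?_⟩
  · simp only [Mn, Tr]
    fun_prop
  · have h1 := Nat.find_spec (ex i)
    obtain ⟨⟨a, ha⟩, h2⟩ := mn_spec _ _ h1.1 h1.2
    refine ⟨⟨a, _, h1, fun n' hn => Nat.find_min' (ex i) hn, ha⟩, h2.subset ?_, ?_⟩
    · rintro b ⟨n, h3, h4, h5⟩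
      have e : n = Nat.find (ex i) := le_antisymm (h4 _ h1) (Nat.find_min' (ex i) h3)
      subst e
      exact h5
    · rintro b ⟨n, -, -, t, h3, -, h4⟩
      exact h3.1 b h4

/-- A continuous function in `M` vanishing only at infinity gives a multiple choice function. -/
theorem choice_of_zero (hC : MF M fun p : ℕ × α => C p.1 p.2) (F : T α → RM M) (hF : MF M F)
    (cont : ∀ x, ∀ ε > 0, ∃ U, Op C U ∧ U x ∧ ∀ y, U y → |(F y).1 - (F x).1| < ε)
    (h0 : (F none).1 = 0) (h1 : ∀ n, (F (q n)).1 ≠ 0) :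
    ∃ R : ℕ → α → Prop, (MF M fun p : ℕ × α => R p.1 p.2) ∧
      ∀ i, (∃ a, R i a) ∧ {a | R i a}.Finite ∧ ∀ a, R i a → C i a := by
  refine choice_of_sep hC (fun n x => (F x + F x).1 < (F (q n) + F (q (n + 1))).1 ↔
    (F (q n)).1 < (F (q (n + 1))).1) (by fun_prop) fun i => ?_
  have ex : ∃ n, i ≤ n ∧ (F (q n)).1 ≠ (F (q (n + 1))).1 := by
    by_contra hc
    simp only [not_exists, not_and, not_not] at hc
    have e : ∀ n, i ≤ n → (F (q n)).1 = (F (q i)).1 := fun n hn => by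
      induction n, hn using Nat.le_induction with
      | base => rfl
      | succ n hn ih => rw [← hc n hn, ih]
    obtain ⟨U, h2, h3, h4⟩ := cont none _ (abs_pos.2 (h1 i))
    obtain ⟨n, hn⟩ := h2.2 h3
    have := h4 _ (hn (max n i) (le_max_left _ _)).1
    rw [h0, sub_zero, e _ (le_max_right _ _)] at this
    exact lt_irrefl _ this
  obtain ⟨n, hn, hne⟩ := ex
  have hpos : |(F (q n)).1 - (F (q (n + 1))).1| / 2 > 0 := half_pos (abs_pos.2 (sub_ne_zero.2 hne))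
  obtain ⟨U, h2, h3, h4⟩ := cont (q n) _ hpos
  obtain ⟨V, h5, h6, h7⟩ := cont (q (n + 1)) _ hpos
  obtain ⟨L, m, h8⟩ := h2.1 _ h3
  obtain ⟨L', m', h9⟩ := h5.1 _ h6
  refine ⟨n, hn, ⟨L, m, fun j i y k hk => ?_⟩, L', m', fun j i y k hk => ?_⟩
  · have := abs_lt.1 (h4 _ (h8 j i y k hk))
    simp only [AddSubgroup.coe_add]
    rcases lt_or_gt_of_ne hne with c | c
    · rw [abs_of_neg (sub_neg.2 c)] at this
      exact iff_of_true (by linarith [this.2]) c
    · rw [abs_of_pos (sub_pos.2 c)] at this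
      exact iff_of_false (by linarith [this.1]) c.not_gt
  · have := abs_lt.1 (h7 _ (h9 j i y k hk))
    simp only [AddSubgroup.coe_add]
    rcases lt_or_gt_of_ne hne with c | c
    · rw [abs_of_neg (sub_neg.2 c)] at this
      exact fun e => absurd (e.2 c) (by linarith [this.1])
    · rw [abs_of_pos (sub_pos.2 c)] at this
      exact fun e => absurd (e.1 (by linarith [this.2])) c.not_gt

end Pool.Agent.Lib.MP_053343_lc.Cmc
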