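import Mathlib
import Pool.Agent.Lib.MP_053343_lc.Cmc1

/-!
If countable multiple choice fails in `M`, then `M` contains a Tychonoff space of countable
pseudocharacter whose zero-set topology is not discrete.
-/

namespace Pool.Agent.Lib.MP_053343_lc.Cmc

open Pool.Agent.Shared.InModel

universe u v

variable {M : ZFSet.{0}} [Mdl M] {α : Type u} {β : Type v} [Cd M α] [Cd M β]

theorem cd_RM (r : RM M) : cd M r = cut r.1 := by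
  ext z
  refine (mem_cd_PM (s := cutS r)).trans ?_
  rw [cut, ZFSet.mem_range]
  exact ⟨fun ⟨x, h, e⟩ => ⟨⟨x, h⟩, e⟩, fun ⟨x, e⟩ => ⟨x.1, x.2, e⟩⟩

theorem snd_mem {a b f : ZFSet} (hf : f ∈ M) (h : ZFSet.pair a b ∈ f) : b ∈ M :=
  tr (tr (x := {a, b}) (tr hf h) (by simp [ZFSet.pair])) (by simp)

theorem mf_graph {f : ZFSet} (hf : f ∈ M) (Φ : α → ZFSet)
    (h : ∀ x c, ZFSet.pair (cd M x) c ∈ f ↔ c = Φ x) :
    MF M fun p : α × β => cd M p.2 ∈ Φ p.1 := by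
  refine MF.of_df (Df.intro (.ex (.ex (.ex (.and (.pr 3 2 1) (.and (.ap 4 2 0) (.mem 1 0))))))
    [f] (by simp [hf]) fun x => ?_)
  simp only [F0.S, List.getD_cons_zero, List.getD_cons_succ, cd_prod, ZFSet.pair_inj]
  constructor
  · rintro ⟨_, -, _, -, c, -, ⟨rfl, rfl⟩, h1, h2⟩
    rwa [← (h _ _).1 h1]
  · exact fun hx => ⟨_, cd_mem _, _, cd_mem _, _, snd_mem hf ((h _ _).2 rfl), ⟨rfl, rfl⟩,
      (h _ _).2 rfl, hx⟩

theorem graph_mf {f : α → β} (h : MF M f) :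
    ∃ g ∈ M, ∀ z, z ∈ g ↔ ∃ x, z = ZFSet.pair (cd M x) (cd M (f x)) := by
  obtain ⟨g, hg, h⟩ := h
  refine ⟨g, hg, fun z => (h z).trans ⟨?_, ?_⟩⟩
  · rintro ⟨p, e, rfl⟩
    exact ⟨p.1, by rw [cd_prod, e]⟩
  · rintro ⟨x, rfl⟩
    exact ⟨(x, f x), rfl, rfl⟩

theorem mf_cd_mem {S : ZFSet} (hS : S ∈ M) : MF M fun x : α => cd M x ∈ S :=
  MF.of_df (Df.intro (.mem 0 1) [S] (by simp [hS]) fun _ => Iff.rfl)

theorem cd_mem_PM {s : PM M α} {x : α} : cd M x ∈ cd M s ↔ x ∈ s := by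
  simp [mem_cd_PM, cd_inj]

theorem seq_rel {C : ℕ → ZFSet} (h : SeqIn M C) : MF M fun p : ℕ × α => cd M p.2 ∈ C p.1 := by
  obtain ⟨g, hg, h⟩ := h
  refine mf_graph hg C fun n c => (h _).trans ⟨?_, fun e => ⟨n, by rw [e]; rfl⟩⟩
  rintro ⟨m, e⟩
  rw [ZFSet.pair_inj] at e
  rw [e.2, (cd_inj (M := M) (x := n) (y := m)).1 e.1]

theorem seq_cd {f : ℕ → α} (h : MF M f) : SeqIn M fun n => cd M (f n) := graph_mf h

/-- A real function with graph in `M`, read on a coded type. -/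
theorem exists_RM {X : ZFSet} (hX : ∀ x : α, cd M x ∈ X) {F : ZFSet → ℝ}
    (h : ∃ f ∈ M, ∀ z, z ∈ f ↔ ∃ x ∈ X, z = ZFSet.pair x (cut (F x))) :
    ∃ G : α → RM M, MF M G ∧ ∀ x, (G x).1 = F (cd M x) := by
  obtain ⟨f, hf, h⟩ := h
  have h1 : MF M fun p : α × ℚ => cd M p.2 ∈ cut (F (cd M p.1)) :=
    mf_graph hf (fun x => cut (F (cd M x))) fun x c => (h _).trans ⟨by
      rintro ⟨y, -, e⟩
      rw [ZFSet.pair_inj] at e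
      rw [e.2, e.1], fun e => ⟨_, hX x, by rw [e]⟩⟩
  have h2 : MF M fun p : α × ℚ => (p.2 : ℝ) < F (cd M p.1) := h1.of_iff fun p => by
    rw [cut, ZFSet.mem_range]
    exact ⟨fun c => ⟨⟨_, c⟩, rfl⟩, fun ⟨r, e⟩ => (cd_inj (M := M) (x := r.1) (y := p.2)).1 e ▸ r.2⟩
  exact ⟨fun x => ⟨F (cd M x), h2.comp (g := fun r => (x, r)) (by fun_prop)⟩, MF.toRM h2,
    fun _ => rfl⟩

/-- The graph of a typed real function. -/
theorem graph_RM {X : ZFSet} (hX : ∀ z, z ∈ X ↔ ∃ x : α, cd M x = z) {F : ZFSet → ℝ}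
    {G : α → RM M} (hG : MF M G) (e : ∀ x, (G x).1 = F (cd M x)) :
    ∃ f ∈ M, ∀ z, z ∈ f ↔ ∃ x ∈ X, z = ZFSet.pair x (cut (F x)) := by
  obtain ⟨g, hg, h⟩ := graph_mf hG
  refine ⟨g, hg, fun z => (h z).trans ⟨?_, ?_⟩⟩
  · rintro ⟨x, rfl⟩
    exact ⟨_, (hX _).2 ⟨x, rfl⟩, by rw [cd_RM, e]⟩
  · rintro ⟨_, hx, rfl⟩
    obtain ⟨x, rfl⟩ := (hX _).1 hx
    exact ⟨x, by rw [cd_RM, e]⟩

theorem space_typed {C : ℕ → α → Prop} (hC : MF M fun p : ℕ × α => C p.1 p.2)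
    (ne : ∀ n, ∃ a, C n a)
    (h : ∀ X ∈ M, ∀ τ ∈ M, IsTop M X τ → Tychonoff M X τ → CtblPseudo M X τ →
      ∀ U ∈ M, U ⊆ X → ZOpen M X τ U) :
    ∃ R : ℕ → α → Prop, (MF M fun p : ℕ × α => R p.1 p.2) ∧
      ∀ i, (∃ a, R i a) ∧ {a | R i a}.Finite ∧ ∀ a, R i a → C i a := by
  classical
  let X : PM M (T α) := PM.of (fun _ => True) (MF.const _)
  let τ : PM M (PM M (T α)) := PM.of _ (mf_op hC)
  have hX : ∀ z, z ∈ cd M X ↔ ∃ x : T α, cd M x = z := fun z => by simp [mem_cd_PM, X]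
  have hτ : ∀ z, z ∈ cd M τ ↔ ∃ U : PM M (T α), (Op C fun x => x ∈ U) ∧ cd M U = z :=
    fun z => mem_cd_PM
  have sub : ∀ U : PM M (T α), cd M U ⊆ cd M X := fun U z hz =>
    let ⟨x, _, e⟩ := mem_cd_PM.1 hz; (hX z).2 ⟨x, e⟩
  have ps : CtblPseudo M (cd M X) (cd M τ) := by
    intro z hz
    obtain ⟨x, rfl⟩ := (hX z).1 hz
    obtain ⟨G, h1, h2, h3⟩ := pseudo (M := M) (C := C) x
    refine ⟨fun n => cd M (PM.lam G h1 n), seq_cd (by fun_prop),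
      fun n => (hτ _).2 ⟨_, h2 n, rfl⟩, fun y => ⟨fun hy => ?_, ?_⟩⟩
    · obtain ⟨w, rfl⟩ := (hX _).1 (sub _ (hy 0))
      rw [(h3 w).1 fun n => cd_mem_PM.1 (hy n)]
    · rintro rfl n
      exact cd_mem_PM.2 ((h3 x).2 rfl n)
  have top : IsTop M (cd M X) (cd M τ) := by
    refine ⟨fun U hU => ?_, (hτ _).2 ⟨X, ⟨fun _ _ => ⟨[], 0, fun _ _ _ _ _ => trivial⟩,
      fun _ => ⟨0, fun _ _ => ⟨trivial, fun _ _ _ => trivial⟩⟩⟩, rfl⟩, fun U hU V hV => ?_,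
      fun S hS hs => ?_⟩
    · obtain ⟨U, -, rfl⟩ := (hτ _).1 hU
      exact sub U
    · obtain ⟨U, h1, rfl⟩ := (hτ _).1 hU
      obtain ⟨V, h2, rfl⟩ := (hτ _).1 hV
      refine (hτ _).2 ⟨PM.of (fun x => x ∈ U ∧ x ∈ V) (by fun_prop), h1.inter h2, ?_⟩
      ext z
      simp only [mem_cd_PM, ZFSet.mem_inter, PM.mem_of]
      constructor
      · rintro ⟨x, h3, rfl⟩
        exact ⟨⟨x, h3.1, rfl⟩, x, h3.2, rfl⟩
      · rintro ⟨⟨x, h3, rfl⟩, y, h4, e⟩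
        exact ⟨x, ⟨h3, cd_inj.1 e ▸ h4⟩, rfl⟩
    · let s : PM M (PM M (T α)) := PM.of _ (mf_cd_mem hS)
      refine (hτ _).2 ⟨PM.of (fun x => ∃ U, U ∈ s ∧ x ∈ U) (by fun_prop),
        Op.of_loc ?_, ?_⟩
      · rintro x ⟨U, h1, h2⟩
        exact ⟨_, cd_mem_PM.1 (hs h1), h2, fun y hy => ⟨U, h1, hy⟩⟩
      · ext z
        simp only [mem_cd_PM, ZFSet.mem_sUnion, PM.mem_of]
        constructor
        · rintro ⟨x, ⟨U, h1, h2⟩, rfl⟩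
          exact ⟨_, h1, cd_mem_PM.2 h2⟩
        · rintro ⟨U, h1, h2⟩
          obtain ⟨U, -, rfl⟩ := (hτ _).1 (hs h1)
          obtain ⟨x, h3, rfl⟩ := mem_cd_PM.1 h2
          exact ⟨x, ⟨U, h1, h3⟩, rfl⟩
  have ty : Tychonoff M (cd M X) (cd M τ) := by
    refine ⟨fun x hx y _ hne => ?_, fun U hU z hz => ?_⟩
    · obtain ⟨U, -, h1, h2⟩ := ps x hx
      by_contra hc
      exact hne ((h2 y).1 fun n => by_contra fun c => hc ⟨_, h1 n, (h2 x).2 rfl n, c⟩).symm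
    · obtain ⟨U, h1, rfl⟩ := (hτ _).1 hU
      obtain ⟨x, hx, rfl⟩ := mem_cd_PM.1 hz
      obtain ⟨K, h2, h3, h4, h5, h6⟩ := zero_dim hC ne h1 hx
      let k : PM M (T α) := PM.of K h2
      refine ⟨fun z => if z ∈ cd M k then 0 else 1, ⟨graph_RM hX
        (G := fun x => if x ∈ k then rq 0 else rq 1) (by fun_prop) fun x => ?_, fun w hw ε hε => ?_⟩,
        if_pos (cd_mem_PM.2 h5), fun w hw => ⟨?_, fun c => if_neg fun c' => c ?_⟩⟩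
      · by_cases c : x ∈ k <;> simp [cd_mem_PM, c, rq]
      · obtain ⟨w, rfl⟩ := (hX _).1 hw
        by_cases c : w ∈ k
        · refine ⟨_, (hτ _).2 ⟨k, h3, rfl⟩, cd_mem_PM.2 c, fun y hy => ?_⟩
          simpa [hy, cd_mem_PM, c] using hε
        · refine ⟨_, (hτ _).2 ⟨PM.of _ h2.not, h4, rfl⟩, cd_mem_PM.2 c, fun y hy => ?_⟩
          obtain ⟨y, h7, rfl⟩ := mem_cd_PM.1 hy
          have h8 : y ∉ k := h7
          simpa [cd_mem_PM, c, h8] using hε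
      · by_cases c : w ∈ cd M k <;> simp [c]
      · obtain ⟨y, h7, rfl⟩ := mem_cd_PM.1 c'
        exact cd_mem_PM.2 (h6 y h7)
  obtain ⟨F, ⟨h1, h2⟩, h3, h4⟩ := h _ (cd_mem X) _ (cd_mem τ) top ty ps {cd M (none : T α)}
    (sing_mem (cd_mem _)) (fun z hz => (hX z).2 ⟨none, (ZFSet.mem_singleton.1 hz).symm⟩) _
    (ZFSet.mem_singleton.2 rfl)
  obtain ⟨G, h5, h6⟩ := exists_RM (α := T α) (fun x => (hX _).2 ⟨x, rfl⟩) h1
  refine choice_of_zero hC G h5 (fun x ε hε => ?_) (by rw [h6, h3]) fun n c => ?_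
  · obtain ⟨U, h7, h8, h9⟩ := h2 _ ((hX _).2 ⟨x, rfl⟩) ε hε
    obtain ⟨U, h10, rfl⟩ := (hτ _).1 h7
    exact ⟨_, h10, cd_mem_PM.1 h8, fun y hy => by rw [h6, h6]; exact h9 _ (cd_mem_PM.2 hy)⟩
  · have := cd_inj.1 (ZFSet.mem_singleton.1 (h4 _ ((hX _).2 ⟨q n, rfl⟩) (by rw [← h6, c])))
    simp [q] at this

theorem cmc_of_discrete
    (h : ∀ X ∈ M, ∀ τ ∈ M, IsTop M X τ → Tychonoff M X τ → CtblPseudo M X τ →
      ∀ U ∈ M, U ⊆ X → ZOpen M X τ U) : CMC M := by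
  intro C hC ne
  obtain ⟨g, hg, h1⟩ := id hC
  let a : {a // a ∈ M} := ⟨_, Mdl.zf.union _ (Mdl.zf.union _ (Mdl.zf.union _ hg))⟩
  have ha : ∀ n x, x ∈ C n → x ∈ a.1 := fun n x hx =>
    ZFSet.mem_sUnion.2 ⟨C n, ZFSet.mem_sUnion.2 ⟨{nat n, C n}, ZFSet.mem_sUnion.2
      ⟨_, (h1 _).2 ⟨n, rfl⟩, by simp [ZFSet.pair]⟩, by simp⟩, hx⟩
  obtain ⟨R, h2, h3⟩ := space_typed (α := ZE a) (C := fun n x => cd M x ∈ C n) (seq_rel hC)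
    (fun n => let ⟨x, hx⟩ := ne n; ⟨⟨x, ha n x hx⟩, hx⟩) h
  refine ⟨fun n => cd M (PM.lam R h2 n), seq_cd (by fun_prop), fun n => ⟨?_, ?_, fun z hz => ?_⟩⟩
  · obtain ⟨x, hx⟩ := (h3 n).1
    exact ⟨_, cd_mem_PM.2 hx⟩
  · refine ((h3 n).2.1.image (cd M)).subset fun z hz => ?_
    obtain ⟨x, hx, rfl⟩ := mem_cd_PM.1 hz
    exact ⟨x, hx, rfl⟩
  · obtain ⟨x, hx, rfl⟩ := mem_cd_PM.1 hz
    exact (h3 n).2.2 x hx

end Pool.Agent.Lib.MP_053343_lc.Cmc
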