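import Mathlib
import Pool.Agent.Lib.MP_053343_lc.Cmc2

/-!
The known direction: under countable multiple choice, points of a Tychonoff space of countable
pseudocharacter are zero-sets.
-/

namespace Pool.Agent.Lib.MP_053343_lc.Cmc

open Pool.Agent.Shared.InModel

universe u v

theorem sup_cont {ι : Type u} {α : Type v} [Nonempty ι] (n : ι → ℕ) (f : ι → α → ℝ)
    (h01 : ∀ i y, 0 ≤ f i y ∧ f i y ≤ 1) (hfin : ∀ N, {i | n i ≤ N}.Finite)
    (O : Set α → Prop) (hu : O Set.univ) (hi : ∀ s t, O s → O t → O (s ∩ t))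
    (hc : ∀ i y, ∀ ε > 0, ∃ s, O s ∧ y ∈ s ∧ ∀ w ∈ s, |f i w - f i y| < ε) (y : α) (ε : ℝ)
    (hε : ε > 0) : ∃ s, O s ∧ y ∈ s ∧
      ∀ w ∈ s, |(⨆ i, f i w / (n i + 1)) - ⨆ i, f i y / (n i + 1)| < ε := by
  have hpos : ∀ i, (0 : ℝ) < n i + 1 := fun i => by positivity
  have hge : ∀ i, (1 : ℝ) ≤ n i + 1 := fun i => by simp
  have bdd : ∀ w, BddAbove (Set.range fun i => f i w / (n i + 1)) := fun w =>
    ⟨1, by rintro _ ⟨i, rfl⟩; exact (div_le_one (hpos i)).2 ((h01 i w).2.trans (hge i))⟩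
  obtain ⟨N, hN⟩ := exists_nat_one_div_lt (half_pos hε)
  have key : ∀ J : Set ι, J.Finite → ∃ s, O s ∧ y ∈ s ∧
      ∀ i ∈ J, ∀ w ∈ s, |f i w - f i y| < ε / 2 := by
    intro J hJ
    induction J, hJ using Set.Finite.induction_on with
    | empty => exact ⟨_, hu, trivial, by simp⟩
    | @insert a J _ _ ih =>
      obtain ⟨s, h1, h2, h3⟩ := ih
      obtain ⟨t, h4, h5, h6⟩ := hc a y _ (half_pos hε)
      refine ⟨_, hi s t h1 h4, ⟨h2, h5⟩, ?_⟩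
      rintro i (rfl | h) w hw
      · exact h6 w hw.2
      · exact h3 i h w hw.1
  obtain ⟨s, h1, h2, h3⟩ := key _ (hfin N)
  have le : ∀ a b : α, (∀ i, n i ≤ N → f i a ≤ f i b + ε / 2) →
      (⨆ i, f i a / (n i + 1)) ≤ (⨆ i, f i b / (n i + 1)) + ε / 2 := by
    intro a b h
    refine ciSup_le fun i => ?_
    have h4 := le_ciSup (bdd b) i
    by_cases c : n i ≤ N
    · have h5 : f i a / (n i + 1) ≤ (f i b + ε / 2) / (n i + 1) :=
        div_le_div_of_nonneg_right (h i c) (hpos i).le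
      have h6 : ε / 2 / (n i + 1) ≤ ε / 2 := div_le_self (half_pos hε).le (hge i)
      rw [add_div] at h5
      linarith
    · have h5 : f i a / (n i + 1) ≤ 1 / (N + 1) := by
        refine div_le_div₀ zero_le_one (h01 i a).2 (by positivity) ?_
        have : (N : ℝ) ≤ n i := by exact_mod_cast (not_le.1 c).le
        linarith
      have h6 : 0 ≤ f i b / (n i + 1) := div_nonneg (h01 i b).1 (hpos i).le
      linarith
  refine ⟨s, h1, h2, fun w hw => abs_lt.2 ⟨?_, ?_⟩⟩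
  · have := le y w fun i c => by linarith [(abs_lt.1 (h3 i c w hw)).1]
    linarith
  · have := le w y fun i c => by linarith [(abs_lt.1 (h3 i c w hw)).2]
    linarith

variable {M : ZFSet.{0}} [Mdl M]

theorem discrete_typed (h : CMC M) {α : Type u} [Cd M α] {X τ : ZFSet}
    (eX : ∀ z, z ∈ X ↔ ∃ y : α, cd M y = z) (hτ : τ ∈ M) (top : IsTop M X τ)
    (ty : Tychonoff M X τ) (ps : CtblPseudo M X τ) {U : ZFSet} (hU : U ⊆ X) : ZOpen M X τ U := by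
  classical
  intro x hx
  have mX : ∀ y : α, cd M y ∈ X := fun y => (eX _).2 ⟨y, rfl⟩
  obtain ⟨x0, rfl⟩ := (eX x).1 (hU hx)
  have : Nonempty α := ⟨x0⟩
  have inv : ∀ y : α, Function.invFun (cd M) (cd M y) = y :=
    Function.leftInverse_invFun (Cd.inj (M := M))
  obtain ⟨V, h1, h2, h3⟩ := ps _ (hU hx)
  let v : ℕ → PM M α := PM.lam (fun n y => cd M y ∈ V n) (seq_rel h1)
  let t : PM M (PM M α) := PM.of _ (mf_cd_mem hτ)
  have rep : ∀ W ∈ τ, ∃ s : PM M α, cd M s = W := fun W hW =>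
    ⟨PM.of _ (mf_cd_mem (tr hτ hW)), ZFSet.ext fun z => mem_cd_PM.trans
      ⟨by rintro ⟨y, h, rfl⟩; exact h, fun hz => by
        obtain ⟨y, rfl⟩ := (eX z).1 (top.1 W hW hz)
        exact ⟨y, hz, rfl⟩⟩⟩
  let Gd : ℕ → FM M α (RM M) → Prop := fun n f =>
    (∀ y, ∀ ε : ℚ, 0 < ε → ∃ s, s ∈ t ∧ y ∈ s ∧ ∀ w, w ∈ s →
      (f.fn w).1 < (f.fn y + rq ε).1 ∧ (f.fn y).1 < (f.fn w + rq ε).1) ∧ f.fn x0 = 0 ∧
      ∀ y, (¬ (f.fn y).1 < (rq (M := M) 0).1 ∧ ¬ (rq (M := M) 1).1 < (f.fn y).1) ∧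
        (y ∉ v n → f.fn y = rq 1)
  have hGd : MF M fun p : ℕ × FM M α (RM M) => Gd p.1 p.2 := by
    simp only [Gd]
    fun_prop
  obtain ⟨F, h4, h5⟩ := h (fun n => cd M (PM.lam Gd hGd n)) (seq_cd (by fun_prop)) fun n => by
    obtain ⟨G, ⟨a1, a2⟩, a3, a4⟩ := ty.2 _ (h2 n) _ ((h3 _).2 rfl n)
    obtain ⟨g, b1, b2⟩ := exists_RM (α := α) mX a1
    refine ⟨cd M (⟨g, b1⟩ : FM M α (RM M)), cd_mem_PM.2 ⟨fun y ε hε => ?_,
      Subtype.ext ((b2 _).trans a3), fun y => ⟨?_, fun c => Subtype.ext ?_⟩⟩⟩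
    · obtain ⟨W, c1, c2, c3⟩ := a2 _ (mX y) ε (by exact_mod_cast hε)
      obtain ⟨s, rfl⟩ := rep W c1
      refine ⟨s, c1, cd_mem_PM.1 c2, fun w hw => ?_⟩
      have := abs_lt.1 (c3 _ (cd_mem_PM.2 hw))
      simp only [AddSubgroup.coe_add, rq, b2]
      exact ⟨by linarith [this.2], by linarith [this.1]⟩
    · simpa [rq, b2] using (a4 _ (mX y)).1
    · simpa [rq, b2] using (a4 _ (mX y)).2 c
  let r : ℕ → PM M (FM M α (RM M)) := PM.lam (fun n f => cd M f ∈ F n) (seq_rel h4)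
  have gd : ∀ n f, f ∈ r n → Gd n f := fun n f hf => cd_mem_PM.1 ((h5 n).2.2 hf)
  have ne : ∀ n, ∃ f, f ∈ r n := fun n => by
    obtain ⟨z, hz⟩ := (h5 n).1
    obtain ⟨f, -, rfl⟩ := mem_cd_PM.1 ((h5 n).2.2 hz)
    exact ⟨f, hz⟩
  have fin : ∀ n, {f | f ∈ r n}.Finite := fun n =>
    (h5 n).2.1.preimage (f := cd M) (Cd.inj (M := M)).injOn
  let ι := {p : ℕ × FM M α (RM M) // p.2 ∈ r p.1}
  have : Nonempty ι := let ⟨f, hf⟩ := ne 0; ⟨⟨(0, f), hf⟩⟩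
  have h01 : ∀ (i : ι) y, 0 ≤ (i.1.2.fn y).1 ∧ (i.1.2.fn y).1 ≤ 1 := fun i y => by
    simpa [rq] using ((gd _ _ i.2).2.2 y).1
  have bdd : ∀ w, BddAbove (Set.range fun i : ι => (i.1.2.fn w).1 / (i.1.1 + 1)) := fun w =>
    ⟨1, by
      rintro _ ⟨i, rfl⟩
      exact (div_le_one (by positivity)).2 ((h01 i w).2.trans (by simp))⟩
  let G : α → ℝ := fun y => ⨆ i : ι, (i.1.2.fn y).1 / (i.1.1 + 1)
  have hG : MF M fun p : α × ℚ => (p.2 : ℝ) < G p.1 :=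
    MF.of_iff (p := fun p : α × ℚ => ∃ n f, f ∈ r n ∧
      ((p.2 * ((n + 1 : ℕ) : ℚ) : ℚ) : ℝ) < (f.fn p.1).1) (by fun_prop) fun p => by
      rw [lt_ciSup_iff (bdd _)]
      constructor
      · rintro ⟨i, hi⟩
        refine ⟨_, _, i.2, ?_⟩
        push_cast
        exact (lt_div_iff₀ (by positivity)).1 hi
      · rintro ⟨n, f, a1, a2⟩
        push_cast at a2
        exact ⟨⟨(n, f), a1⟩, (lt_div_iff₀ (by positivity)).2 a2⟩
  have cont := sup_cont (fun i : ι => i.1.1) (fun i y => (i.1.2.fn y).1) h01 (fun N => by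
      refine Set.Finite.preimage (f := Subtype.val) (s := ⋃ n ∈ Set.Iic N, {n} ×ˢ {f | f ∈ r n})
        Subtype.val_injective.injOn ((Set.finite_Iic N).biUnion fun n _ =>
          (Set.finite_singleton n).prod (fin n)) |>.subset fun i hi => ?_
      exact Set.mem_biUnion (x := i.1.1) hi ⟨rfl, i.2⟩)
    (fun s => ∃ s' : PM M α, s' ∈ t ∧ s'.set = s) (by
      obtain ⟨s, e⟩ := rep X top.2.1
      refine ⟨s, show cd M s ∈ τ by rw [e]; exact top.2.1, Set.eq_univ_of_forall fun y => ?_⟩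
      exact cd_mem_PM.1 (by rw [e]; exact mX y)) (by
      rintro _ _ ⟨s, a1, rfl⟩ ⟨s', a2, rfl⟩
      obtain ⟨w, e⟩ := rep _ (top.2.2.1 _ a1 _ a2)
      refine ⟨w, show cd M w ∈ τ from e ▸ top.2.2.1 _ a1 _ a2, Set.ext fun y => ?_⟩
      rw [PM.mem_set, ← cd_mem_PM, e, ZFSet.mem_inter, cd_mem_PM, cd_mem_PM]
      rfl) (fun i y ε hε => by
      obtain ⟨e, a1, a2⟩ := exists_rat_btwn hε
      obtain ⟨s, a3, a4, a5⟩ := (gd _ _ i.2).1 y e (by exact_mod_cast a1)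
      refine ⟨_, ⟨s, a3, rfl⟩, a4, fun w hw => ?_⟩
      have := a5 w hw
      simp only [AddSubgroup.coe_add, rq] at this
      exact abs_lt.2 ⟨by linarith [this.2], by linarith [this.1]⟩)
  refine ⟨fun z => G (Function.invFun (cd M) z), ⟨graph_RM eX
    (G := fun y => ⟨G y, hG.comp (g := fun a => (y, a)) (by fun_prop)⟩) (MF.toRM hG)
    fun y => by rw [inv], fun y hy ε hε => ?_⟩, ?_, fun y hy e => ?_⟩
  · obtain ⟨y, rfl⟩ := (eX y).1 hy
    obtain ⟨_, ⟨s, a1, rfl⟩, a2, a3⟩ := cont y ε hε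
    refine ⟨_, a1, cd_mem_PM.2 a2, fun w hw => ?_⟩
    obtain ⟨w, a4, rfl⟩ := mem_cd_PM.1 hw
    simp only [inv]
    exact a3 w a4
  · have : ∀ i : ι, (i.1.2.fn x0).1 / (i.1.1 + 1) = 0 := fun i => by
      rw [(gd _ _ i.2).2.1]
      simp
    simp only [inv, G, this, ciSup_const]
  · obtain ⟨y, rfl⟩ := (eX y).1 hy
    simp only [inv] at e
    rw [(h3 (cd M y)).1 fun n => by_contra fun c => ?_]
    · exact hx
    obtain ⟨f, hf⟩ := ne n
    have a1 := le_ciSup (bdd y) ⟨(n, f), hf⟩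
    have a2 : f.fn y = rq 1 := ((gd _ _ hf).2.2 y).2 c
    have a3 : (0 : ℝ) < 1 / (n + 1) := by positivity
    simp only [a2, rq, Rat.cast_one] at a1
    exact absurd (a1.trans (le_of_eq e)) a3.not_ge

theorem cmc_iff : CMC M ↔ ∀ X ∈ M, ∀ τ ∈ M, IsTop M X τ → Tychonoff M X τ → CtblPseudo M X τ →
    ∀ U ∈ M, U ⊆ X → ZOpen M X τ U :=
  ⟨fun h X hX _ hτ top ty ps _ _ hU => discrete_typed h (α := ZE (M := M) ⟨X, hX⟩)
    (fun z => ⟨fun h => ⟨⟨z, h⟩, rfl⟩, fun ⟨y, e⟩ => e ▸ y.2⟩) hτ top ty ps hU, cmc_of_discrete⟩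

end Pool.Agent.Lib.MP_053343_lc.Cmc
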