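import Mathlib
import Pool.Agent.Lib.MP_053343_lc.Canon

/-!
The concrete symmetric system: Cohen reals indexed by the points of a van Douwen type space,
with the group of shifts of the integer blocks and finite supports.
-/

namespace Pool.Agent.Lib.MP_053343_lc

open Filter Classical Name Pointwise

/-- Points: blocks of integers, the points between the blocks, and the point at infinity. -/
inductive Pt : Type
  | atom (n : ℕ) (k : ℤ) | q (n : ℕ) | inf
  deriving Countable

abbrev Gp : Type := Multiplicative (ℕ → ℤ)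

def Pt.sh (s : Gp) : Pt → Pt
  | .atom n k => .atom n (k + Multiplicative.toAdd s n)
  | .q n => .q n
  | .inf => .inf

instance : MulAction Gp Pt where
  smul := Pt.sh
  one_smul a := by
    cases a <;> simp [HSMul.hSMul, SMul.smul, Pt.sh]
  mul_smul s t a := by
    cases a <;> simp [HSMul.hSMul, SMul.smul, Pt.sh]
    ring

@[simp] theorem smul_atom (s : Gp) (n : ℕ) (k : ℤ) :
    s • Pt.atom n k = Pt.atom n (k + Multiplicative.toAdd s n) := rfl
@[simp] theorem smul_q (s : Gp) (n : ℕ) : s • Pt.q n = Pt.q n := rfl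
@[simp] theorem smul_inf (s : Gp) : s • Pt.inf = Pt.inf := rfl

/-- Coordinates of the forcing. -/
structure Dm : Type where
  pt : Pt
  ix : ℕ
  deriving Countable

instance : MulAction Gp Dm where
  smul s x := ⟨s • x.pt, x.ix⟩
  one_smul x := by
    change (⟨(1 : Gp) • x.pt, x.ix⟩ : Dm) = x
    rw [one_smul]
  mul_smul s t x := by
    change (⟨(s * t) • x.pt, x.ix⟩ : Dm) = ⟨s • t • x.pt, x.ix⟩
    rw [mul_smul]

theorem smul_Dm (s : Gp) (a : Pt) (m : ℕ) : s • (⟨a, m⟩ : Dm) = ⟨s • a, m⟩ := rfl

/-- Cohen conditions. -/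
@[ext] structure Cond : Type where
  pos : Finset Dm
  neg : Finset Dm
  disj : ∀ x ∈ pos, x ∉ neg

instance : Countable Cond :=
  Function.Injective.countable (f := fun p : Cond => (p.pos, p.neg))
    fun _ _ h => Cond.ext (congrArg Prod.fst h) (congrArg Prod.snd h)

instance : Preorder Cond where
  le p q := q.pos ⊆ p.pos ∧ q.neg ⊆ p.neg
  le_refl _ := ⟨subset_rfl, subset_rfl⟩
  le_trans _ _ _ h h' := ⟨h'.1.trans h.1, h'.2.trans h.2⟩

instance : OrderTop Cond where
  top := ⟨∅, ∅, by simp⟩
  le_top _ := ⟨Finset.empty_subset _, Finset.empty_subset _⟩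

noncomputable instance : MulAction Gp Cond where
  smul s p := ⟨s • p.pos, s • p.neg, by
    intro x h1 h2
    rw [← Finset.inv_smul_mem_iff] at h1 h2
    exact p.disj _ h1 h2⟩
  one_smul p := Cond.ext (one_smul _ _) (one_smul _ _)
  mul_smul s t p := Cond.ext (mul_smul _ _ _) (mul_smul _ _ _)

theorem smul_pos' (s : Gp) (p : Cond) : (s • p).pos = s • p.pos := rfl
theorem smul_neg' (s : Gp) (p : Cond) : (s • p).neg = s • p.neg := rfl

def Fix (n : ℕ) (s : Gp) : Prop := ∀ i < n, Multiplicative.toAdd s i = 0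

def fil : Filter Gp where
  sets := {T | ∃ n, ∀ s, Fix n s → s ∈ T}
  univ_sets := ⟨0, fun _ _ => trivial⟩
  sets_of_superset := fun ⟨n, h⟩ h' => ⟨n, fun s hs => h' (h s hs)⟩
  inter_sets := fun ⟨n, h⟩ ⟨m, h'⟩ => ⟨max n m, fun s hs =>
    ⟨h s fun i hi => hs i (lt_max_of_lt_left hi), h' s fun i hi => hs i (lt_max_of_lt_right hi)⟩⟩

theorem ev_fil {p : Gp → Prop} : (∀ᶠ s in fil, p s) ↔ ∃ n, ∀ s, Fix n s → p s := Iff.rfl

def sys : SymSys Cond Gp where
  F := fil
  mono s p q h := ⟨Finset.smul_finset_subset_smul_finset h.1,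
    Finset.smul_finset_subset_smul_finset h.2⟩
  top s := Cond.ext (Finset.smul_finset_empty s) (Finset.smul_finset_empty s)
  conj π := by
    have : (fun ρ : Gp => π⁻¹ * ρ * π) = id := by
      funext ρ
      rw [mul_right_comm, inv_mul_cancel, one_mul, id]
    rw [this]; exact tendsto_id

def ht : Dm → ℕ
  | ⟨.atom _ k, _⟩ => k.natAbs
  | _ => 0

def shift (n : ℕ) (d : ℤ) : Gp := Multiplicative.ofAdd (Pi.single n d)

theorem shift_fix {n m : ℕ} (h : m ≤ n) (d : ℤ) : Fix m (shift n d) := by
  intro i hi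
  have : i ≠ n := by omega
  simp [shift, this]

theorem shift_atom (n : ℕ) (d k : ℤ) : shift n d • Pt.atom n k = Pt.atom n (k + d) := by
  simp [shift]

theorem shift_cases (n : ℕ) (d : ℤ) (y : Dm) :
    shift n d • y = y ∨ d.natAbs ≤ ht y + ht (shift n d • y) := by
  obtain ⟨a, m⟩ := y
  rw [smul_Dm]
  cases a with
  | atom n' k =>
    by_cases h : n' = n
    · subst h
      right
      rw [shift_atom]
      simp only [ht]
      omega
    · left
      simp [shift, h]
  | q n' => left; rfl
  | inf => left; rfl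

/-- A long shift of a condition is compatible with it. -/
theorem exists_compat (p : Cond) : ∃ b : ℕ, ∀ (n : ℕ) (d : ℤ), b < d.natAbs →
    ∃ r : Cond, r ≤ p ∧ r ≤ shift n d • p := by
  refine ⟨2 * (p.pos ∪ p.neg).sup ht, fun n d hd => ?_⟩
  have hb : ∀ x, x ∈ p.pos ∨ x ∈ p.neg → ht x ≤ (p.pos ∪ p.neg).sup ht :=
    fun x hx => Finset.le_sup (f := ht) (Finset.mem_union.2 hx)
  refine ⟨⟨p.pos ∪ (shift n d • p).pos, p.neg ∪ (shift n d • p).neg, ?_⟩,
    ⟨Finset.subset_union_left, Finset.subset_union_left⟩,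
    ⟨Finset.subset_union_right, Finset.subset_union_right⟩⟩
  intro x h1 h2
  rcases Finset.mem_union.1 h1 with h1 | h1 <;> rcases Finset.mem_union.1 h2 with h2 | h2
  · exact p.disj x h1 h2
  · rw [smul_neg', Finset.mem_smul_finset] at h2
    obtain ⟨y, hy, rfl⟩ := h2
    rcases shift_cases n d y with e | e
    · rw [e] at h1; exact p.disj y h1 hy
    · have := hb _ (Or.inl h1); have := hb _ (Or.inr hy); omega
  · rw [smul_pos', Finset.mem_smul_finset] at h1
    obtain ⟨y, hy, rfl⟩ := h1
    rcases shift_cases n d y with e | e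
    · rw [e] at h2; exact p.disj y hy h2
    · have := hb _ (Or.inr h2); have := hb _ (Or.inl hy); omega
  · exact (shift n d • p).disj x h1 h2

/-- The sets that make the generic reals pairwise distinct. -/
def sepSet (a b : Pt) : Set Cond := {p | ∃ m, (⟨a, m⟩ : Dm) ∈ p.pos ∧ (⟨b, m⟩ : Dm) ∈ p.neg}

theorem sepSet_dense {a b : Pt} (h : a ≠ b) (p : Cond) : ∃ q ≤ p, q ∈ sepSet a b := by
  let m := (p.pos ∪ p.neg).sup Dm.ix + 1
  have hb : ∀ x, x ∈ p.pos ∨ x ∈ p.neg → x.ix < m :=
    fun x hx => Nat.lt_succ_of_le (Finset.le_sup (f := Dm.ix) (Finset.mem_union.2 hx))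
  refine ⟨⟨insert ⟨a, m⟩ p.pos, insert ⟨b, m⟩ p.neg, ?_⟩,
    ⟨Finset.subset_insert _ _, Finset.subset_insert _ _⟩,
    m, Finset.mem_insert_self _ _, Finset.mem_insert_self _ _⟩
  intro x h1 h2
  rcases Finset.mem_insert.1 h1 with h1 | h1 <;> rcases Finset.mem_insert.1 h2 with h2 | h2
  · rw [h1] at h2; exact h (congrArg Dm.pt h2)
  · have := hb x (Or.inr h2); rw [h1] at this; exact lt_irrefl _ this
  · have := hb x (Or.inl h1); rw [h2] at this; exact lt_irrefl _ this
  · exact p.disj x h1 h2

/-- Codes for basic clopen sets. -/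
inductive Bas : Type
  | ray (n : ℕ) (k : ℤ) | univ | compl (t : Bas) | inter (t u : Bas)
  deriving Countable

def Bas.mem : Bas → Pt → Prop
  | .ray n k, .atom m l => n < m ∨ (n = m ∧ k ≤ l)
  | .ray n _, .q m => n < m
  | .ray _ _, .inf => True
  | .univ, _ => True
  | .compl t, x => ¬ t.mem x
  | .inter t u, x => t.mem x ∧ u.mem x

def Bas.sh (s : Gp) : Bas → Bas
  | .ray n k => .ray n (k + Multiplicative.toAdd s n)
  | .univ => .univ
  | .compl t => .compl (t.sh s)
  | .inter t u => .inter (t.sh s) (u.sh s)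

def Bas.bnd : Bas → ℕ
  | .ray n _ => n + 1
  | .univ => 0
  | .compl t => t.bnd
  | .inter t u => max t.bnd u.bnd

theorem Bas.mem_sh (s : Gp) (t : Bas) (x : Pt) : t.mem x ↔ (t.sh s).mem (s • x) := by
  induction t with
  | ray n k =>
    cases x with
    | atom m l =>
      simp only [Bas.sh, smul_atom, Bas.mem]
      refine or_congr Iff.rfl (and_congr_right ?_)
      rintro rfl
      omega
    | q m => rfl
    | inf => rfl
  | univ => rfl
  | compl t ih => exact not_congr ih
  | inter t u ih1 ih2 => exact and_congr ih1 ih2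

theorem Bas.sh_fix {s : Gp} {t : Bas} (h : Fix t.bnd s) : t.sh s = t := by
  induction t with
  | ray n k => simp [Bas.sh, h n (Nat.lt_succ_self n)]
  | univ => rfl
  | compl t ih => rw [Bas.sh, ih h]
  | inter t u ih1 ih2 =>
    rw [Bas.sh, ih1 fun i hi => h i (lt_max_of_lt_left hi),
      ih2 fun i hi => h i (lt_max_of_lt_right hi)]

theorem Bas.mem_fix {s : Gp} {t : Bas} (h : Fix t.bnd s) (x : Pt) : t.mem x ↔ t.mem (s • x) := by
  rw [Bas.mem_sh s, Bas.sh_fix h]

theorem Bas.ev_bot (t : Bas) (n : ℕ) : ∀ᶠ k in atBot, (t.mem (.atom n k) ↔ t.mem (.q n)) := by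
  induction t with
  | ray m l =>
    filter_upwards [eventually_lt_atBot l] with k hk
    simp only [Bas.mem]; omega
  | univ => exact Eventually.of_forall fun _ => Iff.rfl
  | compl t ih => filter_upwards [ih] with k hk using not_congr hk
  | inter t u ih1 ih2 => filter_upwards [ih1, ih2] with k h1 h2 using and_congr h1 h2

theorem Bas.ev_top (t : Bas) (n : ℕ) :
    ∀ᶠ k in atTop, (t.mem (.atom n k) ↔ t.mem (.q (n + 1))) := by
  induction t with
  | ray m l =>
    filter_upwards [eventually_ge_atTop l] with k hk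
    simp only [Bas.mem]; omega
  | univ => exact Eventually.of_forall fun _ => Iff.rfl
  | compl t ih => filter_upwards [ih] with k hk using not_congr hk
  | inter t u ih1 ih2 => filter_upwards [ih1, ih2] with k h1 h2 using and_congr h1 h2

theorem Bas.ev_inf (t : Bas) : ∀ᶠ n in atTop, (t.mem (.q n) ↔ t.mem .inf) := by
  induction t with
  | ray m l =>
    filter_upwards [eventually_gt_atTop m] with k hk
    simp only [Bas.mem, iff_true]; omega
  | univ => exact Eventually.of_forall fun _ => Iff.rfl
  | compl t ih => filter_upwards [ih] with k hk using not_congr hk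
  | inter t u ih1 ih2 => filter_upwards [ih1, ih2] with k h1 h2 using and_congr h1 h2

theorem Bas.sep {a b : Pt} (h : a ≠ b) : ∃ t : Bas, t.mem a ∧ ¬ t.mem b := by
  suffices ∃ t : Bas, ¬ (t.mem a ↔ t.mem b) by
    obtain ⟨t, ht⟩ := this
    by_cases ha : t.mem a
    · exact ⟨t, ha, fun hb => ht ⟨fun _ => hb, fun _ => ha⟩⟩
    · exact ⟨.compl t, ha, fun hb => ht ⟨fun h => (ha h).elim, fun h => (hb h).elim⟩⟩
  cases a with
  | atom n k =>
    by_contra hc
    push Not at hc
    have h1 := hc (.ray n k)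
    have h2 := hc (.ray n (k + 1))
    cases b with
    | atom m l =>
      simp only [Bas.mem, true_and] at h1 h2
      apply h
      have : n = m ∧ k = l := by omega
      rw [this.1, this.2]
    | q m => simp only [Bas.mem, true_and] at h1 h2; omega
    | inf => simp only [Bas.mem, iff_true] at h1 h2; omega
  | q n =>
    by_contra hc
    push Not at hc
    cases b with
    | atom m l =>
      have h1 := hc (.ray m l)
      have h2 := hc (.ray m (l + 1))
      simp only [Bas.mem, true_and] at h1 h2; omega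
    | q m =>
      have h1 := hc (.ray n 0)
      have h2 := hc (.ray m 0)
      simp only [Bas.mem] at h1 h2
      apply h
      have : n = m := by omega
      rw [this]
    | inf =>
      have h1 := hc (.ray n 0)
      simp only [Bas.mem, iff_true] at h1; omega
  | inf =>
    by_contra hc
    push Not at hc
    cases b with
    | atom m l =>
      have h2 := hc (.ray m (l + 1))
      simp only [Bas.mem, true_iff] at h2; omega
    | q m =>
      have h2 := hc (.ray m 0)
      simp only [Bas.mem, true_iff] at h2; omega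
    | inf => exact h rfl

/-- Sequences of open sets shrinking to a point. -/
def W : Pt → ℕ → Set Pt
  | .atom n k, _ => {x | (Bas.inter (.ray n k) (.compl (.ray n (k + 1)))).mem x}
  | .q 0, j => {x | (Bas.compl (.ray 0 (-j))).mem x}
  | .q (n + 1), j => {x | (Bas.inter (.ray n j) (.compl (.ray (n + 1) (-j)))).mem x}
  | .inf, j => {x | ∃ k, (Bas.ray j k).mem x}

theorem W_open (a : Pt) (j : ℕ) : ∀ x ∈ W a j, ∃ t : Bas, t.mem x ∧ ∀ y, t.mem y → y ∈ W a j := by
  intro x hx
  match a, hx with
  | .atom n k, hx => exact ⟨_, hx, fun _ h => h⟩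
  | .q 0, hx => exact ⟨_, hx, fun _ h => h⟩
  | .q (n + 1), hx => exact ⟨_, hx, fun _ h => h⟩
  | .inf, ⟨k, hk⟩ => exact ⟨_, hk, fun _ h => ⟨k, h⟩⟩

theorem W_inv (a : Pt) : ∀ᶠ s in fil, ∀ j x, x ∈ W a j ↔ s • x ∈ W a j := by
  match a with
  | .atom n k => exact ⟨n + 1, fun s hs j x => Bas.mem_fix (by simpa [Bas.bnd] using hs) x⟩
  | .q 0 => exact ⟨1, fun s hs j x => Bas.mem_fix (by simpa [Bas.bnd] using hs) x⟩
  | .q (n + 1) => exact ⟨n + 2, fun s hs j x => Bas.mem_fix (by simpa [Bas.bnd] using hs) x⟩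
  | .inf =>
    refine Eventually.of_forall fun s j x => ⟨?_, ?_⟩
    · rintro ⟨k, hk⟩
      exact ⟨_, (Bas.mem_sh s _ x).1 hk⟩
    · rintro ⟨k, hk⟩
      have := (Bas.mem_sh s⁻¹ _ _).1 hk
      rw [inv_smul_smul] at this
      exact ⟨_, this⟩

theorem W_inter (a x : Pt) : (∀ j, x ∈ W a j) ↔ x = a := by
  constructor
  · intro h
    match a, x with
    | .atom n k, .atom m l =>
      have := h 0
      simp only [W, Bas.mem, Set.mem_ofPred_eq] at this
      have : m = n ∧ l = k := by omega
      rw [this.1, this.2]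
    | .atom n k, .q m =>
      have := h 0
      simp only [W, Bas.mem, Set.mem_ofPred_eq] at this
      omega
    | .atom n k, .inf =>
      have := h 0
      simp [W, Bas.mem] at this
    | .q 0, .atom m l =>
      have := h l.natAbs
      simp only [W, Bas.mem, Set.mem_ofPred_eq] at this
      omega
    | .q 0, .q m =>
      have := h 0
      simp only [W, Bas.mem, Set.mem_ofPred_eq] at this
      have : m = 0 := by omega
      rw [this]
    | .q 0, .inf =>
      have := h 0
      simp [W, Bas.mem] at this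
    | .q (n + 1), .atom m l =>
      have := h (l.natAbs + 1)
      simp only [W, Bas.mem, Set.mem_ofPred_eq] at this
      omega
    | .q (n + 1), .q m =>
      have := h 0
      simp only [W, Bas.mem, Set.mem_ofPred_eq] at this
      have : m = n + 1 := by omega
      rw [this]
    | .q (n + 1), .inf =>
      have := h 0
      simp [W, Bas.mem] at this
    | .inf, .atom m l =>
      obtain ⟨k, hk⟩ := h (m + 1)
      simp only [Bas.mem] at hk
      omega
    | .inf, .q m =>
      obtain ⟨k, hk⟩ := h (m + 1)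
      simp only [Bas.mem] at hk
      omega
    | .inf, .inf => rfl
  · rintro rfl j
    match x with
    | .atom n k => simp [W, Bas.mem]
    | .q 0 => simp [W, Bas.mem]
    | .q (n + 1) => simp [W, Bas.mem]
    | .inf => exact ⟨0, trivial⟩

end Pool.Agent.Lib.MP_053343_lc
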