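import Mathlib
import Pool.Agent.Lib.MP_053343_lc.Sys

/-!
The space inside the symmetric model and the verification of its properties.
-/

namespace Pool.Agent.Lib.MP_053343_lc

open Filter Classical Name Pointwise

def cnd (a : Pt) (m : ℕ) : Cond := ⟨{⟨a, m⟩}, ∅, by simp⟩

/-- The name of the Cohen real attached to a point. -/
def ptN (a : Pt) : Name Cond := ⟨ℕ, natN, cnd a⟩

def sN (T : Set Pt) : Name Cond := setN fun x : T => ptN x

def BN : Name Cond := setN fun t : Bas => sN {x | t.mem x}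

noncomputable def fN (t : Bas) : Name Cond :=
  setN fun x : Pt => pairN (ptN x) (cutN (if t.mem x then 0 else 1))

def gN (a : Pt) : Name Cond := setN fun n : ℕ => pairN (natN n) (sN (W a n))

theorem rel_ptN (s : Gp) (a : Pt) : Rel s (ptN a) (ptN (s • a)) := by
  have : ∀ m, cnd (s • a) m = s • cnd a m := fun m =>
    Cond.ext (Finset.smul_finset_singleton (b := (⟨a, m⟩ : Dm)) (a := s)).symm
      (Finset.smul_finset_empty s).symm
  exact ⟨fun m => ⟨m, this m, rel_natN sys s m⟩, fun m => ⟨m, this m, rel_natN sys s m⟩⟩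

theorem ev_fix (a : Pt) : ∀ᶠ s in fil, s • a = a := by
  cases a with
  | atom n k => exact ⟨n + 1, fun s hs => by simp [hs n (Nat.lt_succ_self n)]⟩
  | q n => exact Eventually.of_forall fun _ => rfl
  | inf => exact Eventually.of_forall fun _ => rfl

theorem hs_ptN (a : Pt) : HS fil (ptN a) := by
  refine ⟨?_, hs_natN sys⟩
  filter_upwards [ev_fix a] with s hs
  have := rel_ptN s a
  rwa [hs] at this

theorem rel_sN {s : Gp} {T T' : Set Pt} (h : ∀ x, x ∈ T ↔ s • x ∈ T') : Rel s (sN T) (sN T') := by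
  refine rel_setN sys (fun x => ⟨⟨s • x.1, (h _).1 x.2⟩, rel_ptN s _⟩) fun y => ?_
  refine ⟨⟨s⁻¹ • y.1, (h _).2 (by simp)⟩, ?_⟩
  have := rel_ptN s (s⁻¹ • y.1)
  rwa [smul_inv_smul] at this

theorem hs_sN {T : Set Pt} (h : ∀ᶠ s in fil, ∀ x, x ∈ T ↔ s • x ∈ T) : HS fil (sN T) :=
  hs_setN sys (h.mono fun _ hs => rel_sN hs) fun _ => hs_ptN _

theorem hs_BN : HS fil BN := by
  refine hs_setN sys (Eventually.of_forall fun s => rel_setN sys ?_ ?_) fun t =>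
    hs_sN ⟨t.bnd, fun s hs x => Bas.mem_fix hs x⟩
  · exact fun t => ⟨t.sh s, rel_sN (Bas.mem_sh s t)⟩
  · refine fun t => ⟨t.sh s⁻¹, rel_sN fun x => ?_⟩
    have := Bas.mem_sh s⁻¹ t (s • x)
    rw [inv_smul_smul] at this
    exact this.symm

theorem hs_fN (t : Bas) : HS fil (fN t) := by
  refine hs_setN sys ⟨t.bnd, fun s hs => ?_⟩ fun x => hs_pairN sys (hs_ptN x) (hs_cutN sys _)
  have key : ∀ x : Pt, Rel s (pairN (ptN x) (cutN (if t.mem x then 0 else 1)))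
      (pairN (ptN (s • x)) (cutN (if t.mem (s • x) then 0 else 1))) := by
    intro x
    have : (if t.mem (s • x) then (0 : ℝ) else 1) = if t.mem x then 0 else 1 := by
      simp only [← Bas.mem_fix hs x]
    rw [this]
    exact rel_pairN sys (rel_ptN s x) (rel_cutN sys s _)
  refine rel_setN sys (fun x => ⟨s • x, key x⟩) fun y => ⟨s⁻¹ • y, ?_⟩
  have := key (s⁻¹ • y)
  rwa [smul_inv_smul] at this

theorem hs_gN (a : Pt) : HS fil (gN a) := by
  refine hs_setN sys ?_ fun n => hs_pairN sys (hs_natN sys n)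
    (hs_sN ((W_inv a).mono fun s hs => hs n))
  filter_upwards [W_inv a] with s hs
  exact rel_setN_self sys fun n => rel_pairN sys (rel_natN sys s n) (rel_sN (hs n))

inductive Ix : Type
  | omega | X | B | f (t : Bas) | g (a : Pt) | code (q : ℚ)
  deriving Countable

noncomputable def base : Ix → Name Cond
  | .omega => setN natN
  | .X => sN Set.univ
  | .B => BN
  | .f t => fN t
  | .g a => gN a
  | .code q => codeN q

theorem hs_base (i : Ix) : HS sys.F (base i) := by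
  cases i with
  | omega => exact hs_omegaN sys
  | X => exact hs_sN (Eventually.of_forall fun _ _ => Iff.rfl)
  | B => exact hs_BN
  | f t => exact hs_fN t
  | g a => exact hs_gN a
  | code q => exact hs_codeN sys q

/-- A context containing the basic names, with pairwise distinct generic reals. -/
structure Good (C : Ctx sys) : Prop where
  base : ∀ i, base i ∈ C.N
  sep : ∀ a b, a ≠ b → ∃ p ∈ C.G, p ∈ sepSet a b

theorem exists_good : ∃ C : Ctx sys, Good C := by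
  obtain ⟨C, h1, h2⟩ := exists_ctx sys base hs_base
    (Set.range fun x : Pt × Pt => sepSet x.1 x.2) (Set.countable_range _)
  refine ⟨C, h1, fun a b h => ?_⟩
  obtain ⟨p, hp, h3 | h3⟩ := h2 _ ⟨(a, b), rfl⟩
  · exact ⟨p, hp, h3⟩
  · obtain ⟨q, h4, h5⟩ := sepSet_dense h p
    exact (h3 q h4 h5).elim

noncomputable def pt (C : Ctx sys) (a : Pt) : ZFSet.{0} := C.val (ptN a)

noncomputable def St (C : Ctx sys) (T : Set Pt) : ZFSet.{0} := ZFSet.range fun x : T => pt C x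

theorem mem_St {C : Ctx sys} {T : Set Pt} {x : ZFSet} : x ∈ St C T ↔ ∃ a ∈ T, x = pt C a := by
  unfold St
  rw [ZFSet.mem_range]
  exact ⟨fun ⟨a, h⟩ => ⟨a.1, a.2, h.symm⟩, fun ⟨a, h1, h⟩ => ⟨⟨a, h1⟩, h.symm⟩⟩

theorem val_sN {C : Ctx sys} {T : Set Pt} (h : sN T ∈ C.N) : C.val (sN T) = St C T := by
  ext x
  rw [sN, C.mem_val_setN h, mem_St]
  exact ⟨fun ⟨a, h⟩ => ⟨a.1, a.2, h⟩, fun ⟨a, h1, h⟩ => ⟨⟨a, h1⟩, h⟩⟩

/-- The formula defining openness with respect to a base. -/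
def openF : Fml :=
  .neg (.ex (.and (.mem 0 1) (.neg (.ex (.and (.mem 0 3) (.and (.mem 1 0)
    (.neg (.ex (.and (.mem 0 1) (.neg (.mem 0 3)))))))))))

/-- The formula saying that the value of a function at a point exceeds a rational. -/
def gtF : Fml :=
  .ex (.and (.mem 0 2) (.and (.neg (.ex (.and (.mem 0 1) (.neg (.mem 2 0)))))
    (.ex (.and (.mem 0 1) (.ex (.and (.mem 0 1) (.mem 5 0)))))))

namespace Good

variable {C : Ctx sys} (h : Good C)
include h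

theorem model : ModelZF C.M :=
  C.modelZF (C.val_omegaN (h.base .omega) ▸ C.val_mem_M (h.base .omega))

theorem natN_mem (m : ℕ) : natN m ∈ C.N := C.setN_child (h.base .omega) m

theorem ptN_mem (a : Pt) : ptN a ∈ C.N :=
  C.setN_child (A := fun x : (Set.univ : Set Pt) => ptN x) (h.base .X) ⟨a, trivial⟩

theorem bas_mem (t : Bas) : sN {x | t.mem x} ∈ C.N :=
  C.setN_child (A := fun t : Bas => sN {x | t.mem x}) (h.base .B) t

theorem mem_pt {a : Pt} {x : ZFSet} : x ∈ pt C a ↔ ∃ m, cnd a m ∈ C.G ∧ x = nat m := by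
  rw [pt, C.mem_val]
  constructor
  · rintro ⟨m, a1, a2, rfl⟩
    exact ⟨m, a2, C.val_natN m a1⟩
  · rintro ⟨m, a2, rfl⟩
    exact ⟨m, h.natN_mem m, a2, (C.val_natN m (h.natN_mem m)).symm⟩

theorem pt_inj {a b : Pt} (e : pt C a = pt C b) : a = b := by
  by_contra hne
  obtain ⟨p, hp, m, h1, h2⟩ := h.sep a b hne
  have : nat m ∈ pt C a := h.mem_pt.2 ⟨m, C.up p hp _
    ⟨Finset.singleton_subset_iff.2 h1, Finset.empty_subset _⟩, rfl⟩
  rw [e] at this
  obtain ⟨m', h3, h4⟩ := h.mem_pt.1 this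
  rw [← nat_inj h4] at h3
  obtain ⟨r, _, r1, r2⟩ := C.dir p hp _ h3
  exact r.disj _ (r2.1 (Finset.mem_singleton_self _)) (r1.2 h2)

theorem pt_mem_St {T : Set Pt} {a : Pt} : pt C a ∈ St C T ↔ a ∈ T := by
  rw [mem_St]
  exact ⟨fun ⟨b, h1, h2⟩ => h.pt_inj h2 ▸ h1, fun h1 => ⟨a, h1, rfl⟩⟩

theorem X_mem : St C Set.univ ∈ C.M := val_sN (h.base .X) ▸ C.val_mem_M (h.base .X)

theorem St_bas_mem (t : Bas) : St C {x | t.mem x} ∈ C.M :=
  val_sN (h.bas_mem t) ▸ C.val_mem_M (h.bas_mem t)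

theorem mem_B {x : ZFSet} : x ∈ C.val BN ↔ ∃ t : Bas, x = St C {x | t.mem x} := by
  rw [BN, C.mem_val_setN (h.base .B)]
  exact exists_congr fun t => by rw [val_sN (h.bas_mem t)]

theorem exists_top : ∃ τ ∈ C.M, ∀ U, U ∈ τ ↔ U ∈ C.M ∧ U ⊆ St C Set.univ ∧
    ∀ a, pt C a ∈ U → ∃ t : Bas, t.mem a ∧ ∀ b, t.mem b → pt C b ∈ U := by
  obtain ⟨b, hb, hb'⟩ := h.model.power _ h.X_mem
  have hB : C.val BN ∈ C.M := C.val_mem_M (h.base .B)
  refine ⟨_, h.model.sep openF [C.val BN] (by simpa using hB) b hb, fun U => ?_⟩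
  simp only [ZFSet.mem_sep, Sat, openF, List.getD_cons_zero, List.getD_cons_succ]
  constructor
  · rintro ⟨h1, h2⟩
    have hU : U ∈ C.M := C.trans _ hb h1
    refine ⟨hU, (hb' U hU).1 h1, fun a ha => ?_⟩
    by_contra hc
    refine h2 ⟨_, C.trans _ hU ha, ha, ?_⟩
    rintro ⟨c, _, c1, c2, c3⟩
    obtain ⟨t, rfl⟩ := h.mem_B.1 c1
    refine hc ⟨t, h.pt_mem_St.1 c2, fun b hb => ?_⟩
    by_contra hc'
    exact c3 ⟨_, C.val_mem_M (h.ptN_mem b), h.pt_mem_St.2 hb, hc'⟩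
  · rintro ⟨h1, h2, h3⟩
    refine ⟨(hb' U h1).2 h2, ?_⟩
    rintro ⟨x, _, x1, x2⟩
    obtain ⟨a, _, rfl⟩ := mem_St.1 (h2 x1)
    obtain ⟨t, t1, t2⟩ := h3 a x1
    refine x2 ⟨_, h.St_bas_mem t, h.mem_B.2 ⟨t, rfl⟩, h.pt_mem_St.2 t1, ?_⟩
    rintro ⟨y, _, y1, y2⟩
    obtain ⟨b, b1, rfl⟩ := mem_St.1 y1
    exact y2 (t2 b b1)

theorem sat_gtF {f : ZFSet} (hf : f ∈ C.M) {F : ZFSet → ℝ}
    (hF : ∀ z, z ∈ f ↔ ∃ x ∈ St C Set.univ, z = ZFSet.pair x (cut (F x))) (a : Pt) (ρ : ℚ)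
    (l : List ZFSet) : Sat C.M gtF (pt C a :: f :: code ρ :: l) ↔ (ρ : ℝ) < F (pt C a) := by
  simp only [Sat, gtF, List.getD_cons_zero, List.getD_cons_succ]
  constructor
  · rintro ⟨z, hz, z1, z2, w, _, w1, c, _, c1, c2⟩
    obtain ⟨x, hx, rfl⟩ := (hF z).1 z1
    have s1 : ({x} : ZFSet) ∈ ZFSet.pair x (cut (F x)) := by simp [ZFSet.pair]
    have e : pt C a = x := by
      by_contra hc
      exact z2 ⟨{x}, C.trans _ hz s1, s1, by simpa using hc⟩
    subst e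
    have : c = pt C a ∨ c = cut (F (pt C a)) := by
      simp only [ZFSet.pair, ZFSet.mem_pair] at w1
      rcases w1 with rfl | rfl
      · left; simpa using c1
      · simpa using c1
    rcases this with rfl | rfl
    · obtain ⟨m, _, hm⟩ := h.mem_pt.1 c2
      exact (pair_ne_nat _ _ m hm).elim
    · exact code_mem_cut.1 c2
  · intro hlt
    have z1 : ZFSet.pair (pt C a) (cut (F (pt C a))) ∈ f :=
      (hF _).2 ⟨_, h.pt_mem_St.2 trivial, rfl⟩
    have zM := C.trans _ hf z1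
    have w1 : ({pt C a, cut (F (pt C a))} : ZFSet) ∈ ZFSet.pair (pt C a) (cut (F (pt C a))) := by
      simp [ZFSet.pair]
    have wM := C.trans _ zM w1
    have c1 : cut (F (pt C a)) ∈ ({pt C a, cut (F (pt C a))} : ZFSet) := by simp
    refine ⟨_, zM, z1, ?_, _, wM, w1, _, C.trans _ wM c1, c1, code_mem_cut.2 hlt⟩
    rintro ⟨u, _, u1, u2⟩
    simp only [ZFSet.pair, ZFSet.mem_pair] at u1
    rcases u1 with rfl | rfl
    · exact u2 (by simp)
    · exact u2 (by simp)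

/-- Homogeneity: a lower bound for the value at one point of a block recurs far away. -/
theorem orbit {f : ZFSet} (hf : f ∈ C.M) {F : ZFSet → ℝ}
    (hF : ∀ z, z ∈ f ↔ ∃ x ∈ St C Set.univ, z = ZFSet.pair x (cut (F x))) :
    ∃ n₀ : ℕ, ∀ n ≥ n₀, ∀ (k : ℤ) (ρ : ℚ) (t : Bas), (ρ : ℝ) < F (pt C (.atom n k)) →
      (∀ b : ℕ, ∃ d : ℤ, b < d.natAbs ∧ t.mem (.atom n (k + d))) →
      ∃ a, t.mem a ∧ (ρ : ℝ) < F (pt C a) := by
  obtain ⟨φ, hφ, rfl⟩ := C.mem_M.1 hf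
  obtain ⟨n₀, hn₀⟩ := ev_fil.1 (C.hs φ hφ).sym
  refine ⟨n₀, fun n hn k ρ t hlt hd => ?_⟩
  have hρ : codeN ρ ∈ C.N := h.base (.code ρ)
  have l1 : ∀ x ∈ [ptN (.atom n k), φ, codeN ρ], x ∈ C.N :=
    C.cons (C.two hφ hρ) (h.ptN_mem _)
  have l2 : ∀ x ∈ [φ, codeN ρ, sN {x | t.mem x}], x ∈ C.N :=
    C.cons (C.two hρ (h.bas_mem t)) hφ
  obtain ⟨p, hp, hp'⟩ := (C.truth gtF l1).1 (by
    simp only [List.map_cons, List.map_nil, C.val_codeN ρ hρ]
    exact (h.sat_gtF hf hF _ ρ []).2 hlt)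
  obtain ⟨p', hp1, h1 | h1⟩ := C.gfrc (.ex (.and (.mem 0 3) gtF)) _ l2
  · have := (C.truth _ l2).2 ⟨p', hp1, h1⟩
    simp only [List.map_cons, List.map_nil, C.val_codeN ρ hρ, val_sN (h.bas_mem t)] at this
    obtain ⟨y, _, y1, y2⟩ := this
    obtain ⟨a, a1, rfl⟩ := mem_St.1 y1
    exact ⟨a, a1, (h.sat_gtF hf hF a ρ _).1 y2⟩
  · exfalso
    obtain ⟨q, _, q1, q2⟩ := C.dir p hp p' hp1
    obtain ⟨b, hb⟩ := exists_compat q
    obtain ⟨d, d1, d2⟩ := hd b
    obtain ⟨r, r1, r2⟩ := hb n d d1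
    have f1 : Frc sys.F gtF [ptN (shift n d • .atom n k), φ, codeN ρ] (shift n d • q) :=
      Frc.rel sys.mono sys.conj (List.Forall₂.cons (rel_ptN _ _) (List.Forall₂.cons
        (hn₀ _ (shift_fix hn d)) (List.Forall₂.cons (rel_codeN sys _ ρ) List.Forall₂.nil)))
        (hp'.mono q1)
    rw [shift_atom] at f1
    exact h1 r (r1.trans q2) ⟨ptN (.atom n (k + d)), hs_ptN _,
      ⟨⟨.atom n (k + d), d2⟩, le_top, FEq.refl _ _⟩, f1.mono r2⟩

theorem main : ∃ X ∈ C.M, ∃ τ ∈ C.M, IsTop C.M X τ ∧ Tychonoff C.M X τ ∧ CtblPseudo C.M X τ ∧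
    ¬ ∀ U ∈ C.M, U ⊆ X → ZOpen C.M X τ U := by
  obtain ⟨τ, hτ, mτ⟩ := h.exists_top
  have sub : ∀ T, St C T ⊆ St C Set.univ := by
    intro T x hx
    obtain ⟨a, _, rfl⟩ := mem_St.1 hx
    exact h.pt_mem_St.2 trivial
  have stτ : ∀ T, St C T ∈ C.M → (∀ a ∈ T, ∃ t : Bas, t.mem a ∧ ∀ b, t.mem b → b ∈ T) →
      St C T ∈ τ := by
    intro T h1 h2
    refine (mτ _).2 ⟨h1, sub T, fun a ha => ?_⟩
    obtain ⟨t, t1, t2⟩ := h2 a (h.pt_mem_St.1 ha)
    exact ⟨t, t1, fun b hb => h.pt_mem_St.2 (t2 b hb)⟩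
  have basτ : ∀ t : Bas, St C {x | t.mem x} ∈ τ := fun t =>
    stτ _ (h.St_bas_mem t) fun a ha => ⟨t, ha, fun _ hb => hb⟩
  refine ⟨_, h.X_mem, τ, hτ, ⟨fun U hU => ((mτ U).1 hU).2.1, basτ .univ, ?_, ?_⟩,
    ⟨?_, ?_⟩, ?_, ?_⟩
  · intro U hU V hV
    obtain ⟨u1, u2, u3⟩ := (mτ U).1 hU
    obtain ⟨v1, v2, v3⟩ := (mτ V).1 hV
    refine (mτ _).2 ⟨h.model.sep (.mem 0 1) [V] (by simpa using v1) U u1,
      fun x hx => u2 (ZFSet.mem_inter.1 hx).1, fun a ha => ?_⟩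
    obtain ⟨t, t1, t2⟩ := u3 a (ZFSet.mem_inter.1 ha).1
    obtain ⟨s, s1, s2⟩ := v3 a (ZFSet.mem_inter.1 ha).2
    exact ⟨.inter t s, ⟨t1, s1⟩, fun b hb => ZFSet.mem_inter.2 ⟨t2 b hb.1, s2 b hb.2⟩⟩
  · intro S hS hSτ
    refine (mτ _).2 ⟨h.model.union S hS, fun x hx => ?_, fun a ha => ?_⟩
    · obtain ⟨U, u1, u2⟩ := ZFSet.mem_sUnion.1 hx
      exact ((mτ U).1 (hSτ u1)).2.1 u2
    · obtain ⟨U, u1, u2⟩ := ZFSet.mem_sUnion.1 ha
      obtain ⟨t, t1, t2⟩ := ((mτ U).1 (hSτ u1)).2.2 a u2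
      exact ⟨t, t1, fun b hb => ZFSet.mem_sUnion.2 ⟨U, u1, t2 b hb⟩⟩
  · intro x hx y hy hxy
    obtain ⟨a, _, rfl⟩ := mem_St.1 hx
    obtain ⟨b, _, rfl⟩ := mem_St.1 hy
    obtain ⟨t, t1, t2⟩ := Bas.sep (a := a) (b := b) fun e => hxy (by rw [e])
    exact ⟨_, basτ t, h.pt_mem_St.2 t1, fun hb => t2 (h.pt_mem_St.1 hb)⟩
  · intro U hU x hx
    obtain ⟨u1, u2, u3⟩ := (mτ U).1 hU
    obtain ⟨a, _, rfl⟩ := mem_St.1 (u2 hx)
    obtain ⟨t, t1, t2⟩ := u3 a hx
    let F : ZFSet → ℝ := fun z => if z ∈ St C {x | t.mem x} then 0 else 1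
    have hF : ∀ b, F (pt C b) = if t.mem b then 0 else 1 := fun b => by
      simp only [F, h.pt_mem_St, Set.mem_ofPred_eq]
    refine ⟨F, ⟨⟨_, C.val_mem_M (h.base (.f t)), fun z => ?_⟩, ?_⟩, by rw [hF, if_pos t1], ?_⟩
    · have hf : fN t ∈ C.N := h.base (.f t)
      have hv : ∀ b, C.val (pairN (ptN b) (cutN (if t.mem b then 0 else 1))) =
          ZFSet.pair (pt C b) (cut (F (pt C b))) := fun b => by
        have hb := C.setN_child hf b
        rw [C.val_pairN hb, C.val_cutN _ (C.pairN_right hb), hF]; rfl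
      change z ∈ C.val (fN t) ↔ _
      rw [fN, C.mem_val_setN hf]
      constructor
      · rintro ⟨b, rfl⟩
        exact ⟨_, h.pt_mem_St.2 trivial, hv b⟩
      · rintro ⟨x, hx, rfl⟩
        obtain ⟨b, _, rfl⟩ := mem_St.1 hx
        exact ⟨b, (hv b).symm⟩
    · intro x hx ε hε
      obtain ⟨b, _, rfl⟩ := mem_St.1 hx
      by_cases hb : t.mem b
      · refine ⟨_, basτ t, h.pt_mem_St.2 hb, fun y hy => ?_⟩
        obtain ⟨c, hc, rfl⟩ := mem_St.1 hy
        rw [hF, hF, if_pos hb, if_pos (show t.mem c from hc)]; simpa using hε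
      · refine ⟨_, basτ (.compl t), h.pt_mem_St.2 hb, fun y hy => ?_⟩
        obtain ⟨c, hc, rfl⟩ := mem_St.1 hy
        rw [hF, hF, if_neg hb, if_neg hc]; simpa using hε
    · intro y hy
      obtain ⟨b, _, rfl⟩ := mem_St.1 hy
      rw [hF]
      refine ⟨by split_ifs <;> simp, fun hb => if_neg fun hb' => hb (t2 b hb')⟩
  · intro x hx
    obtain ⟨a, _, rfl⟩ := mem_St.1 hx
    have hg : gN a ∈ C.N := h.base (.g a)
    have hs : ∀ n, sN (W a n) ∈ C.N := fun n => C.pairN_right (C.setN_child hg n)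
    refine ⟨fun n => St C (W a n), ⟨_, C.val_mem_M hg, fun z => ?_⟩,
      fun n => stτ _ (val_sN (hs n) ▸ C.val_mem_M (hs n)) (W_open a n), fun y => ?_⟩
    · rw [gN, C.mem_val_setN hg]
      refine exists_congr fun n => ?_
      rw [C.val_pairN (C.setN_child hg n), C.val_natN _ (h.natN_mem n), val_sN (hs n)]
    · constructor
      · intro hy
        obtain ⟨b, _, rfl⟩ := mem_St.1 (hy 0)
        rw [(W_inter a b).1 fun j => h.pt_mem_St.1 (hy j)]
      · rintro rfl n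
        exact h.pt_mem_St.2 ((W_inter a a).2 rfl n)
  · intro hz
    have hM : pt C .inf ∈ C.M := C.val_mem_M (h.ptN_mem _)
    have h1 : ({pt C .inf} : ZFSet) ∈ C.M := by
      simpa using h.model.pair _ hM _ hM
    obtain ⟨F, ⟨⟨f, hf, hF⟩, hc⟩, F0, F1⟩ := hz _ h1 (fun x hx => by
      rw [ZFSet.mem_singleton.1 hx]; exact h.pt_mem_St.2 trivial) (pt C .inf) (by simp)
    have hc' : ∀ a, ∀ ε > 0, ∃ t : Bas, t.mem a ∧
        ∀ b, t.mem b → |F (pt C b) - F (pt C a)| < ε := by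
      intro a ε hε
      obtain ⟨U, u1, u2, u3⟩ := hc _ (h.pt_mem_St.2 (Set.mem_univ a)) ε hε
      obtain ⟨t, t1, t2⟩ := ((mτ U).1 u1).2.2 a u2
      exact ⟨t, t1, fun b hb => u3 _ (t2 b hb)⟩
    obtain ⟨n₀, hn₀⟩ := h.orbit hf hF
    have step : ∀ n ≥ n₀, F (pt C (.q (n + 1))) = F (pt C (.q n)) := by
      intro n hn
      rcases lt_trichotomy (F (pt C (.q (n + 1)))) (F (pt C (.q n))) with hl | hl | hl
      · exfalso
        obtain ⟨ρ, r1, r2⟩ := exists_rat_btwn hl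
        obtain ⟨t, t1, t2⟩ := hc' (.q (n + 1)) _ (sub_pos.2 r1)
        obtain ⟨s, s1, s2⟩ := hc' (.q n) _ (sub_pos.2 r2)
        obtain ⟨k, hk⟩ := (s.ev_bot n).exists
        have := abs_lt.1 (s2 _ (hk.2 s1))
        obtain ⟨a, a1, a2⟩ := hn₀ n hn k ρ t (by linarith) (by
          intro b
          obtain ⟨K, hK⟩ := eventually_atTop.1 (t.ev_top n)
          refine ⟨(K - k).natAbs + b + 1, by omega, (hK _ (by omega)).2 t1⟩)
        have := abs_lt.1 (t2 a a1)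
        linarith
      · exact hl
      · exfalso
        obtain ⟨ρ, r1, r2⟩ := exists_rat_btwn hl
        obtain ⟨t, t1, t2⟩ := hc' (.q n) _ (sub_pos.2 r1)
        obtain ⟨s, s1, s2⟩ := hc' (.q (n + 1)) _ (sub_pos.2 r2)
        obtain ⟨k, hk⟩ := (s.ev_top n).exists
        have := abs_lt.1 (s2 _ (hk.2 s1))
        obtain ⟨a, a1, a2⟩ := hn₀ n hn k ρ t (by linarith) (by
          intro b
          obtain ⟨K, hK⟩ := eventually_atBot.1 (t.ev_bot n)
          refine ⟨-((K - k).natAbs + b + 1), by omega, (hK _ (by omega)).2 t1⟩)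
        have := abs_lt.1 (t2 a a1)
        linarith
    have const : ∀ n ≥ n₀, F (pt C (.q n)) = F (pt C (.q n₀)) := by
      intro n hn
      induction n, hn using Nat.le_induction with
      | base => rfl
      | succ n hn ih => rw [step n hn, ih]
    have zero : F (pt C (.q n₀)) = 0 := by
      by_contra hne
      obtain ⟨t, t1, t2⟩ := hc' .inf _ (abs_pos.2 hne)
      obtain ⟨n, n1, n2⟩ := (t.ev_inf.and (eventually_ge_atTop n₀)).exists
      have := t2 _ (n1.2 t1)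
      rw [const n n2, F0, sub_zero] at this
      exact lt_irrefl _ this
    have := F1 _ (h.pt_mem_St.2 trivial) zero
    have := h.pt_inj (ZFSet.mem_singleton.1 this)
    cases this

end Good

end Pool.Agent.Lib.MP_053343_lc
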